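import Pool.Agent.H36.AO.PStmts

/-!
Definability of forced statements.
-/

set_option linter.unusedVariables false
set_option linter.unusedSectionVars false
set_option synthInstance.maxSize 100000

namespace AO.BP

open SW

section
variable {M : Type} [SetStr M] [ZF M]

theorem dfo_lc {s u : List ℕ} (h : lc s = lc u) : s = u := Encodable.encode_injective h

/-- forced initial segments, internally -/
def FlI (P σ p x : M) : Prop := ∀ j z : M, RR (RP 2) x j z → Fo P σ p j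

/-- lengths, internally -/
def LeI (x n : M) : Prop := RR (RP 1) x n emp

theorem leI_iff (x n : M) : LeI x n ↔ ∃ s : List ℕ, x = nu (lc s) ∧ n = nu s.length := by
  constructor
  · rintro ⟨t, ⟨s, h0, h1⟩, e0, e1, e2⟩
    exact ⟨s, by rw [e0, h0], by rw [e1, h1]⟩
  · rintro ⟨s, h0, h1⟩
    exact ⟨![lc s, s.length, 0, 0, 0], ⟨s, rfl, rfl⟩, h0, h1, rfl⟩

theorem flI_iff (P σ p : M) (s : List ℕ) : FlI P σ p (nu (lc s)) ↔ Fl P σ p s := by
  constructor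
  · intro h k v hk
    exact h _ (nu 0) ⟨![lc s, Nat.pair k v, 0, 0, 0], ⟨s, k, v, rfl, hk, rfl⟩, rfl, rfl, rfl⟩
  · rintro h j z ⟨t, ⟨s', k, v, h0, h1, h2⟩, e0, e1, e2⟩
    rw [h0] at e0
    have := dfo_lc (CUR.nu_inj e0)
    subst this
    rw [e1, h2]
    exact h k v h1

theorem rr0_iff (j k v : M) : RR (RP 0) j k v ↔
    ∃ k' v' : ℕ, k = nu k' ∧ v = nu v' ∧ j = nu (Nat.pair k' v') := by
  constructor
  · rintro ⟨t, h, e0, e1, e2⟩
    have h' : t 0 = Nat.pair (t 1) (t 2) := h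
    exact ⟨t 1, t 2, e1, e2, by rw [e0, h']⟩
  · rintro ⟨k', v', rfl, rfl, rfl⟩
    exact ⟨![Nat.pair k' v', k', v', 0, 0], rfl, rfl, rfl, rfl⟩

/-- the four clauses, internally -/
def OKI (P g σ τ μ : M) : Prop :=
  (∀ p, E p P → Sub g p → ∀ n, E n om → ∃ r x y, E r P ∧ Sub p r ∧ LeI x n ∧ LeI y (suc n) ∧
    FlI P σ r x ∧ FlI P τ r y) ∧
  (∀ p, E p P → Sub g p → ∀ j j' k v v', RR (RP 0) j k v → RR (RP 0) j' k v' → Fo P σ p j →
    Fo P σ p j' → v = v') ∧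
  (∀ p, E p P → Sub g p → ∀ j j' k v v', RR (RP 0) j k v → RR (RP 0) j' k v' → Fo P τ p j →
    Fo P τ p j' → v = v') ∧
  (∀ p, E p P → Sub g p → ∀ y x, RR (RP 5) y x μ → ¬ (FlI P σ p x ∧ FlI P τ p y))

theorem okI_iff (hS : Std M) (P g σ τ : M) (m : ℕ) : OKI P g σ τ (nu m) ↔ OK P g σ τ m := by
  have h1 : ∀ ρ : M, (∀ p, E p P → Sub g p → ∀ j j' k v v', RR (RP 0) j k v →
      RR (RP 0) j' k v' → Fo P ρ p j → Fo P ρ p j' → v = v') ↔
      ∀ p, E p P → Sub g p → ∀ k v v' : ℕ, Fo P ρ p (nu (Nat.pair k v)) →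
        Fo P ρ p (nu (Nat.pair k v')) → v = v' := by
    intro ρ
    constructor
    · intro h p hp hg k v v' hv hv'
      exact CUR.nu_inj (h p hp hg _ _ (nu k) (nu v) (nu v') ((rr0_iff _ _ _).2 ⟨k, v, rfl, rfl, rfl⟩)
        ((rr0_iff _ _ _).2 ⟨k, v', rfl, rfl, rfl⟩) hv hv')
    · intro h p hp hg j j' k v v' hj hj' hv hv'
      obtain ⟨k0, v0, rfl, rfl, rfl⟩ := (rr0_iff _ _ _).1 hj
      obtain ⟨k1, v1, e, rfl, rfl⟩ := (rr0_iff _ _ _).1 hj'
      have := CUR.nu_inj e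
      subst this
      rw [h p hp hg _ _ _ hv hv']
  unfold OKI
  rw [h1 σ, h1 τ]
  constructor
  · rintro ⟨a, b, c, d⟩
    refine ⟨?_, b, c, ?_⟩
    · intro p hp hg n
      obtain ⟨r, x, y, hr, hpr, hx, hy, h2, h3⟩ := a p hp hg (nu n) (CUR.nu_mem_om n)
      obtain ⟨s, rfl, e⟩ := (leI_iff _ _).1 hx
      obtain ⟨u, rfl, e'⟩ := (leI_iff _ _).1 hy
      refine ⟨r, s, u, hr, hpr, (CUR.nu_inj e).symm, ?_, (flI_iff _ _ _ _).1 h2,
        (flI_iff _ _ _ _).1 h3⟩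
      have e2 : (nu (n + 1) : M) = nu u.length := e'
      exact (CUR.nu_inj e2).symm
    · intro p hp hg s u hu hm h2 h3
      by_contra h4
      exact d p hp hg (nu (lc u)) (nu (lc s)) ⟨![lc u, lc s, m, 0, 0],
        ⟨u, s, rfl, rfl, hu, hm, h4⟩, rfl, rfl, rfl⟩ ⟨(flI_iff _ _ _ _).2 h2,
        (flI_iff _ _ _ _).2 h3⟩
  · rintro ⟨a, b, c, d⟩
    refine ⟨?_, b, c, ?_⟩
    · intro p hp hg n hn
      obtain ⟨n, rfl⟩ := hS n hn
      obtain ⟨r, s, u, hr, hpr, hs, hu, h2, h3⟩ := a p hp hg n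
      refine ⟨r, nu (lc s), nu (lc u), hr, hpr, (leI_iff _ _).2 ⟨s, rfl, by rw [hs]⟩,
        (leI_iff _ _).2 ⟨u, rfl, by rw [hu]; rfl⟩, (flI_iff _ _ _ _).2 h2,
        (flI_iff _ _ _ _).2 h3⟩
    · rintro p hp hg y x ⟨t, ⟨u, s, h0, h1, h2, h3, h4⟩, e0, e1, e2⟩ ⟨h5, h6⟩
      have em : m = t 2 := CUR.nu_inj e2
      rw [e0, h0, flI_iff] at h6
      rw [e1, h1, flI_iff] at h5
      exact h4 (d p hp hg s u h2 (by rw [em]; exact h3) h5 h6)

end

theorem ao_dfo : DFOStmt := by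
  intro M _ _ P hmr
  have i0 : ∀ {n : ℕ} {t s u : (Fin n → M) → M} [DfT t] [DfT s] [DfT u],
      Df (fun v => RR (RP 0) (t v) (s v) (u v)) :=
    fun {n t s u} ht hs hu => (RR_df hmr.std (hmr.has 0)).comp3
      (R := fun x y z : M => RR (RP 0) x y z) ht hs hu
  have i1 : ∀ {n : ℕ} {t s u : (Fin n → M) → M} [DfT t] [DfT s] [DfT u],
      Df (fun v => RR (RP 1) (t v) (s v) (u v)) :=
    fun {n t s u} ht hs hu => (RR_df hmr.std (hmr.has 1)).comp3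
      (R := fun x y z : M => RR (RP 1) x y z) ht hs hu
  have i2 : ∀ {n : ℕ} {t s u : (Fin n → M) → M} [DfT t] [DfT s] [DfT u],
      Df (fun v => RR (RP 2) (t v) (s v) (u v)) :=
    fun {n t s u} ht hs hu => (RR_df hmr.std (hmr.has 2)).comp3
      (R := fun x y z : M => RR (RP 2) x y z) ht hs hu
  have i5 : ∀ {n : ℕ} {t s u : (Fin n → M) → M} [DfT t] [DfT s] [DfT u],
      Df (fun v => RR (RP 5) (t v) (s v) (u v)) :=
    fun {n t s u} ht hs hu => (RR_df hmr.std (hmr.has 5)).comp3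
      (R := fun x y z : M => RR (RP 5) x y z) ht hs hu
  constructor
  · have h : Df (fun v : Fin 4 → M => E (v 3) om ∧ OKI P (v 0) (v 1) (v 2) (v 3)) := by
      unfold OKI LeI FlI
      infer_instance
    refine h.congr fun v => Iff.symm ?_
    constructor
    · rintro ⟨h1, h2⟩
      obtain ⟨m, hm⟩ := hmr.std _ h1
      exact ⟨m, hm, by rw [← okI_iff hmr.std, ← hm]; exact h2⟩
    · rintro ⟨m, hm, h2⟩
      rw [hm]
      exact ⟨CUR.nu_mem_om m, (okI_iff hmr.std _ _ _ _ _).2 h2⟩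
  · intro σ n
    have h : Cl (fun r : M => ∃ x, LeI x (nu n) ∧ FlI P σ r x) := by
      unfold LeI FlI
      infer_instance
    refine h.congr fun v => Iff.symm ?_
    constructor
    · rintro ⟨x, h1, h2⟩
      obtain ⟨s, rfl, e⟩ := (leI_iff _ _).1 h1
      exact ⟨s, (CUR.nu_inj e).symm, (flI_iff _ _ _ _).1 h2⟩
    · rintro ⟨s, h1, h2⟩
      exact ⟨nu (lc s), (leI_iff _ _).2 ⟨s, rfl, by rw [h1]⟩, (flI_iff _ _ _ _).2 h2⟩

end AO.BP
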