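import Pool.Agent.H36.AO.PStmts
import Pool.Agent.H94.CC.Stmts

/-!
A good order of the union of an increasing sequence of sets of vertices.
-/

set_option linter.unusedVariables false
set_option linter.unusedSectionVars false
set_option synthInstance.maxSize 100000

namespace AO.BP

open SW

section
variable {N : Type} [SetStr N] [ZF N]

theorem glu_vx0 (x : N) : vx false x = opair emp x := by unfold vx; simp

theorem glu_vx1 (x : N) : vx true x = opair (sing emp) x := by unfold vx; simp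

theorem glu_nb (hz : ZD N) : Cl2 (fun v v' : N => Nb v v') := by
  have h1 : Cl2 (fun x y : N => ZZ (rb x) (rb y)) := hz
  have h2 : Df (fun w : Fin 2 → N => ∃ x y : N, (Sub x om ∧ Sub y om ∧
      ((w 0 = opair emp x ∧ w 1 = opair (sing emp) y) ∨
        (w 1 = opair emp x ∧ w 0 = opair (sing emp) y))) ∧ ZZ (rb x) (rb y)) := by
    have i0 : ∀ {n : ℕ} {t s : (Fin n → N) → N} [DfT t] [DfT s],
        Df (fun v => ZZ (rb (t v)) (rb (s v))) :=
      fun {n t s} ht hs => h1.comp2 (R := fun x y => ZZ (rb x) (rb y)) ht hs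
    infer_instance
  refine h2.congr fun w => ?_
  unfold Nb
  simp only [glu_vx0, glu_vx1]
  constructor
  · rintro ⟨x, y, a, b, c, d⟩
    exact ⟨x, y, ⟨a, b, c⟩, d⟩
  · rintro ⟨x, y, ⟨a, b, c⟩, d⟩
    exact ⟨x, y, a, b, c, d⟩

theorem glu_gw (hz : ZD N) {f : N → N} (hf : Fn1 f) : Cl2 (fun r W : N => GW (f r) W) := by
  have h1 := glu_nb hz
  have i1 : ∀ {n : ℕ} {t s : (Fin n → N) → N} [DfT t] [DfT s], Df (fun v => Nb (t v) (s v)) :=
    fun {n t s} ht hs => h1.comp2 ht hs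
  have i2 : ∀ {n : ℕ} {t : (Fin n → N) → N} [DfT t], DfT (fun v => f (t v)) :=
    fun {n t} ht => hf.comp1 ht
  have h3 : Cl2 (fun r W : N =>
    (∀ v v', E v (f r) → E v' (f r) → v ≠ v' → E (opair v v') W ∨ E (opair v' v) W) ∧
    (∀ v v', E v (f r) → E v' (f r) → E (opair v v') W → ¬ E (opair v' v) W) ∧
    (∀ u v v', E u (f r) → E v (f r) → E v' (f r) → E (opair u v) W → E (opair v v') W →
      E (opair u v') W) ∧
    (∀ S, Sub S (f r) → (∃ v, E v S) → ∃ v, E v S ∧ ∀ v', E v' S → ¬ E (opair v' v) W) ∧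
    (∀ v, E v (f r) → ∃ C, Cb C ∧ ∀ v', E v' (f r) → E (opair v' v) W → Nb v' v → E v' C)) := by
    infer_instance
  refine h3.congr fun w => ?_
  constructor
  · rintro ⟨a, b, c, d, e⟩
    exact ⟨a, b, c, d, e⟩
  · rintro ⟨a, b, c, d, e⟩
    exact ⟨a, b, c, d, e⟩

end

theorem ao_glu (hCHS : CC.CHSStmt) (hCBT : CBTStmt) : GLUStmt := by
  intro N _ _ k V hz hk hV hW hmon h1 h2
  have hcb := hCBT N
  have iN := glu_nb hz
  have i1 : ∀ {n : ℕ} {t s : (Fin n → N) → N} [DfT t] [DfT s], Df (fun v => Nb (t v) (s v)) :=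
    fun {n t s} ht hs => iN.comp2 ht hs
  have i2 : ∀ {n : ℕ} {t : (Fin n → N) → N} [DfT t], DfT (fun v => V (t v)) :=
    fun {n t} ht => hV.comp1 ht
  obtain ⟨w, hw⟩ := hCHS N k (fun r W => GW (V r) W) (glu_gw hz hV) hW
  -- the rank
  let rk : N → N → Prop := fun v r => E r k ∧ E v (V r) ∧ ∀ r', E r' r → ¬ E v (V r')
  have rkdf : Cl2 (fun v r : N => rk v r) := by
    show Cl2 (fun v r : N => E r k ∧ E v (V r) ∧ ∀ r', E r' r → ¬ E v (V r'))
    infer_instance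
  have i3 : ∀ {n : ℕ} {t s : (Fin n → N) → N} [DfT t] [DfT s], Df (fun v => rk (t v) (s v)) :=
    fun {n t s} ht hs => rkdf.comp2 ht hs
  have hU : ∀ v, E v (sUn (img k V)) ↔ ∃ r, E r k ∧ E v (V r) := by
    intro v
    rw [mem_sUn]
    constructor
    · rintro ⟨y, hy, hv⟩
      rw [mem_img' hV] at hy
      obtain ⟨r, hr, rfl⟩ := hy
      exact ⟨r, hr, hv⟩
    · rintro ⟨r, hr, hv⟩
      exact ⟨V r, (mem_img' hV).2 ⟨r, hr, rfl⟩, hv⟩
  have rkex : ∀ v, E v (sUn (img k V)) → ∃ r, rk v r := by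
    intro v hv
    obtain ⟨r, hr, hvr⟩ := (hU v).1 hv
    obtain ⟨r0, hr0, ⟨hr0k, hr0v⟩, hmin⟩ := ord_min (C := fun r => E r k ∧ E v (V r))
      inferInstance (hk.mem hr) ⟨hr, hvr⟩
    exact ⟨r0, hr0k, hr0v, fun r' hr' hv' => hmin.1 r' hr' ⟨hk.trans hr0k hr', hv'⟩⟩
  have rkun : ∀ v r r', rk v r → rk v r' → r = r' := by
    rintro v r r' ⟨h3, h4, h5⟩ ⟨h6, h7, h8⟩
    rcases (hk.mem h3).tri (hk.mem h6) with h | h | h
    · exact absurd h4 (h8 r h)
    · exact h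
    · exact absurd h7 (h5 r' h)
  let R : N → N → Prop := fun v v' => ∃ r r', rk v r ∧ rk v' r' ∧
    (E r r' ∨ (r = r' ∧ E (opair v v') (app w r)))
  have Rdf : Cl2 (fun v r : N => R v r) := by
    show Cl2 (fun v v' : N => ∃ r r', rk v r ∧ rk v' r' ∧
      (E r r' ∨ (r = r' ∧ E (opair v v') (app w r))))
    infer_instance
  have i4 : ∀ {n : ℕ} {t s : (Fin n → N) → N} [DfT t] [DfT s], Df (fun v => R (t v) (s v)) :=
    fun {n t s} ht hs => Rdf.comp2 ht hs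
  have hWm : ∀ z, E z (sep (prod (sUn (img k V)) (sUn (img k V)))
      (fun z => ∃ v v', z = opair v v' ∧ R v v')) ↔
      E z (prod (sUn (img k V)) (sUn (img k V))) ∧ ∃ v v', z = opair v v' ∧ R v v' :=
    fun z => mem_sep' inferInstance
  generalize sep (prod (sUn (img k V)) (sUn (img k V)))
      (fun z => ∃ v v', z = opair v v' ∧ R v v') = W at hWm
  have hWp : ∀ v v', E v (sUn (img k V)) → E v' (sUn (img k V)) → (E (opair v v') W ↔ R v v') := by
    intro v v' hv hv'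
    rw [hWm]
    constructor
    · rintro ⟨_, a, b, e, h⟩
      rw [opair_inj] at e
      obtain ⟨rfl, rfl⟩ := e
      exact h
    · intro h
      exact ⟨by rw [mem_prod]; exact ⟨hv, hv'⟩, v, v', rfl, h⟩
  have Rrk : ∀ {v v' r r'}, rk v r → rk v' r' → (R v v' ↔ E r r' ∨
      (r = r' ∧ E (opair v v') (app w r))) := by
    intro v v' r r' hr hr'
    constructor
    · rintro ⟨s, s', hs, hs', h⟩
      rw [rkun v r s hr hs, rkun v' r' s' hr' hs']
      exact h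
    · intro h
      exact ⟨r, r', hr, hr', h⟩
  have rkord : ∀ {v r}, rk v r → Ord r := fun h => hk.mem h.1
  refine ⟨W, ?_, ?_, ?_, ?_, ?_⟩
  · intro v v' hv hv' hne
    rw [hWp v v' hv hv', hWp v' v hv' hv]
    obtain ⟨r, hr⟩ := rkex v hv
    obtain ⟨r', hr'⟩ := rkex v' hv'
    rw [Rrk hr hr', Rrk hr' hr]
    rcases (rkord hr).tri (rkord hr') with h | h | h
    · exact Or.inl (Or.inl h)
    · subst h
      rcases (hw r hr.1).tot v v' hr.2.1 hr'.2.1 hne with h | h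
      · exact Or.inl (Or.inr ⟨rfl, h⟩)
      · exact Or.inr (Or.inr ⟨rfl, h⟩)
    · exact Or.inr (Or.inl h)
  · intro v v' hv hv'
    rw [hWp v v' hv hv', hWp v' v hv' hv]
    obtain ⟨r, hr⟩ := rkex v hv
    obtain ⟨r', hr'⟩ := rkex v' hv'
    rw [Rrk hr hr', Rrk hr' hr]
    rintro (h | ⟨h, h3⟩) (h' | ⟨h', h3'⟩)
    · exact not_mem_self r ((rkord hr).trans h' h)
    · subst h'
      exact not_mem_self _ h
    · subst h
      exact not_mem_self _ h'
    · subst h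
      exact (hw r hr.1).asy v v' hr.2.1 hr'.2.1 h3 h3'
  · intro u v v' hu hv hv'
    rw [hWp u v hu hv, hWp v v' hv hv', hWp u v' hu hv']
    obtain ⟨r0, hr0⟩ := rkex u hu
    obtain ⟨r, hr⟩ := rkex v hv
    obtain ⟨r', hr'⟩ := rkex v' hv'
    rw [Rrk hr0 hr, Rrk hr hr', Rrk hr0 hr']
    rintro (h | ⟨h, h3⟩) (h' | ⟨h', h3'⟩)
    · exact Or.inl ((rkord hr').trans h' h)
    · subst h'
      exact Or.inl h
    · subst h
      exact Or.inl h'
    · subst h
      subst h'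
      exact Or.inr ⟨rfl, (hw _ hr.1).tra u v v' hr0.2.1 hr.2.1 hr'.2.1 h3 h3'⟩
  · rintro S hS ⟨v0, hv0⟩
    obtain ⟨r0, hr0⟩ := rkex v0 (hS v0 hv0)
    obtain ⟨r, hro, ⟨v1, hv1, hr1⟩, hmin⟩ := ord_min (C := fun r => ∃ v, E v S ∧ rk v r)
      inferInstance (rkord hr0) ⟨v0, hv0, hr0⟩
    have hS' : ∀ v, E v (sep S (fun v => rk v r)) ↔ E v S ∧ rk v r := fun v =>
      mem_sep' inferInstance
    obtain ⟨v, hv, hvm⟩ := (hw r hr1.1).wf (sep S (fun v => rk v r))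
      (fun v hv => ((hS' v).1 hv).2.2.1) ⟨v1, (hS' v1).2 ⟨hv1, hr1⟩⟩
    obtain ⟨hvS, hvr⟩ := (hS' v).1 hv
    refine ⟨v, hvS, fun v' hv' => ?_⟩
    obtain ⟨r', hr'⟩ := rkex v' (hS v' hv')
    rw [hWp v' v (hS v' hv') (hS v hvS), Rrk hr' hvr]
    rintro (h | ⟨h, h3⟩)
    · exact hmin.1 r' h ⟨v', hv', hr'⟩
    · subst h
      exact hvm v' ((hS' v').2 ⟨hv', hr'⟩) h3
  · intro v hv
    obtain ⟨r, hr⟩ := rkex v hv
    obtain ⟨C0, hC0, hC0'⟩ := (hw r hr.1).cnt v hr.2.1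
    obtain ⟨e, he, hes, hec⟩ := h1 r v hr.1 hr.2.1 hr.2.2
    obtain ⟨c, hc⟩ := hCHS N e (fun u C => Cb C ∧ ∀ v', E v' (V u) → Nb v' v → E v' C)
      inferInstance (fun u hu => h2 u r v (hk.trans hr.1 (hes u hu)) hr.1 hr.2.1
        (hr.2.2 u (hes u hu)))
    refine ⟨bun C0 (sUn (img e (fun u => app c u))), ?_, fun v' hv' hvv hnb => ?_⟩
    · exact hcb.bun hC0 (hcb.iUn _ inferInstance he fun u hu => (hc u hu).1)
    · obtain ⟨r', hr'⟩ := rkex v' hv'
      rw [hWp v' v hv' hv, Rrk hr' hr] at hvv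
      rw [mem_bun]
      rcases hvv with h | ⟨h, h3⟩
      · right
        obtain ⟨u, hu, hu'⟩ := hec r' h
        rw [mem_sUn]
        refine ⟨app c u, (mem_img' inferInstance).2 ⟨u, hu, rfl⟩, (hc u hu).2 v' ?_ hnb⟩
        rcases hu' with hu' | rfl
        · exact hmon u r' (hk.trans hr.1 (hes u hu)) hu' v' hr'.2.1
        · exact hr'.2.1
      · left
        subst h
        exact hC0' v' hr'.2.1 h3 hnb

end AO.BP
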