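import Pool.Agent.H74.AO.HStmts
import Pool.Agent.H78.CUR.NU

/-!
Tools for the transfer: codes of relations of 1, 2, 3, 4 and 5 variables, finite conjunctions.
-/

set_option linter.unusedVariables false
set_option linter.unusedSectionVars false
set_option synthInstance.maxSize 100000

namespace AO

open SW MeasureTheory

section
variable {N : Type} [SetStr N] [ZF N]

theorem tup5 (t : Fin 5 → N) : CUR.tupv 4 t =
    opair (t 0) (opair (t 1) (opair (t 2) (opair (t 3) (t 4)))) := rfl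

/-- codes of relations of 5 variables -/
theorem has5 {R : ℕ → ℕ → ℕ → ℕ → ℕ → Prop}
    (h : Has N {t : Fin 5 → ℕ | R (t 0) (t 1) (t 2) (t 3) (t 4)}) :
    ∃ c : N, ∀ i j k l m : ℕ,
      E (opair (nu i) (opair (nu j) (opair (nu k) (opair (nu l) (nu m))))) c ↔ R i j k l m := by
  obtain ⟨c, hc⟩ := h
  exact ⟨c, fun i j k l m => hc ![i, j, k, l, m]⟩

/-- codes of relations of 4 variables -/
theorem has4 {R : ℕ → ℕ → ℕ → ℕ → Prop} (h : Has N {t : Fin 5 → ℕ | R (t 0) (t 1) (t 2) (t 3)}) :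
    ∃ c : N, ∀ i j k l : ℕ,
      E (opair (nu i) (opair (nu j) (opair (nu k) (nu l)))) c ↔ R i j k l := by
  obtain ⟨c, hc⟩ := h
  refine ⟨sep (prod om (prod om (prod om om))) (fun z => ∃ x y u v, z = opair x (opair y
    (opair u v)) ∧ E (opair x (opair y (opair u (opair v emp)))) c), fun i j k l => ?_⟩
  rw [mem_sep' inferInstance]
  constructor
  · rintro ⟨_, x, y, u, v, e, h⟩
    simp only [opair_inj] at e
    obtain ⟨rfl, rfl, rfl, rfl⟩ := e
    exact (hc ![i, j, k, l, 0]).1 h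
  · intro h
    refine ⟨?_, nu i, nu j, nu k, nu l, rfl, (hc ![i, j, k, l, 0]).2 h⟩
    simp only [mem_prod]
    exact ⟨CUR.nu_mem_om i, CUR.nu_mem_om j, CUR.nu_mem_om k, CUR.nu_mem_om l⟩

/-- codes of relations of 3 variables -/
theorem has3 {R : ℕ → ℕ → ℕ → Prop} (h : Has N {t : Fin 5 → ℕ | R (t 0) (t 1) (t 2)}) :
    ∃ c : N, ∀ i j k : ℕ, E (opair (nu i) (opair (nu j) (nu k))) c ↔ R i j k := by
  obtain ⟨c, hc⟩ := has4 (R := fun i j k _ => R i j k) h
  refine ⟨sep (prod om (prod om om)) (fun z => ∃ x y u, z = opair x (opair y u) ∧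
    E (opair x (opair y (opair u emp))) c), fun i j k => ?_⟩
  rw [mem_sep' inferInstance]
  constructor
  · rintro ⟨_, x, y, u, e, h⟩
    simp only [opair_inj] at e
    obtain ⟨rfl, rfl, rfl⟩ := e
    exact (hc i j k 0).1 h
  · intro h
    refine ⟨?_, nu i, nu j, nu k, rfl, (hc i j k 0).2 h⟩
    simp only [mem_prod]
    exact ⟨CUR.nu_mem_om i, CUR.nu_mem_om j, CUR.nu_mem_om k⟩

/-- codes of relations of 2 variables -/
theorem has2 {R : ℕ → ℕ → Prop} (h : Has N {t : Fin 5 → ℕ | R (t 0) (t 1)}) :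
    ∃ c : N, ∀ i j : ℕ, E (opair (nu i) (nu j)) c ↔ R i j := by
  obtain ⟨c, hc⟩ := has3 (R := fun i j _ => R i j) h
  refine ⟨sep (prod om om) (fun z => ∃ x y, z = opair x y ∧
    E (opair x (opair y emp)) c), fun i j => ?_⟩
  rw [mem_sep' inferInstance]
  constructor
  · rintro ⟨_, x, y, e, h⟩
    simp only [opair_inj] at e
    obtain ⟨rfl, rfl⟩ := e
    exact (hc i j 0).1 h
  · intro h
    refine ⟨?_, nu i, nu j, rfl, (hc i j 0).2 h⟩
    simp only [mem_prod]
    exact ⟨CUR.nu_mem_om i, CUR.nu_mem_om j⟩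

/-- codes of relations of one variable -/
theorem has1 {R : ℕ → Prop} (h : Has N {t : Fin 5 → ℕ | R (t 0)}) :
    ∃ c : N, ∀ i : ℕ, E (nu i) c ↔ R i := by
  obtain ⟨c, hc⟩ := has2 (R := fun i _ => R i) h
  refine ⟨sep om (fun z => E (opair z emp) c), fun i => ?_⟩
  rw [mem_sep' inferInstance]
  exact ⟨fun h => (hc i 0).1 h.2, fun h => ⟨CUR.nu_mem_om i, (hc i 0).2 h⟩⟩

theorem rb_iff (x : N) (j : ℕ) : rb x j = true ↔ E (nu j) x := by
  unfold rb
  simp

theorem rb_iff' (x : N) (j : ℕ) : rb x j = false ↔ ¬ E (nu j) x := by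
  unfold rb
  simp

end

section
variable {M : Type} [SetStr M]

/-- finite conjunctions -/
theorem Df_allFin : ∀ {k n : ℕ} {Q : Fin k → (Fin n → M) → Prop}, (∀ i, Df (Q i)) →
    Df (fun v => ∀ i, Q i v)
  | 0, n, Q, h => (inferInstance : Df (fun _ : Fin n → M => True)).congr fun v => by simp
  | k + 1, n, Q, h => by
      have h0 := h 0
      have h1 := Df_allFin (fun i : Fin k => h i.succ)
      exact (inferInstance : Df (fun v => Q 0 v ∧ ∀ i : Fin k, Q i.succ v)).congr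
        fun v => Fin.forall_fin_succ

instance {k n : ℕ} {Q : Fin k → (Fin n → M) → Prop} [h : ∀ i, Df (Q i)] :
    Df (fun v => ∀ i, Q i v) := Df_allFin h

end

end AO
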