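import Pool.Agent.H74.AO.HStmts
import Pool.Agent.H98.AO.BStmts
import Pool.Agent.H47.AO.HG2
import Pool.Agent.H21.AO.GFS
import Pool.Agent.H74.AO.HC

/-!
The elements of the group of a model, and their supports.
-/

set_option linter.unusedVariables false
set_option linter.unusedSectionVars false
set_option synthInstance.maxSize 100000

namespace AO

open SW MeasureTheory

section
variable {N : Type} [SetStr N] [ZF N]

/-- the real of the vertex coded by `b` -/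
noncomputable def hgR (b : N) : N := sep om (fun n => E (suc n) b)

/-- the code of the vertex coded by `b` -/
noncomputable def hgV (b : N) : N := opair (sep (sing emp) (fun _ => E emp b)) (hgR b)

theorem hgV_df : Fn1 (fun b : N => hgV b) := by
  unfold hgV hgR
  infer_instance

theorem hgR_sub (b : N) : Sub (hgR b) om := by
  intro z hz
  unfold hgR at hz
  rw [mem_sep' inferInstance] at hz
  exact hz.1

theorem hgR_rb (b : N) : rb (hgR b) = fun n => rb b (n + 1) := by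
  funext n
  have : E (nu n) (hgR b) ↔ E (nu (n + 1)) b := by
    unfold hgR
    rw [mem_sep' inferInstance]
    exact ⟨fun h => h.2, fun h => ⟨CUR.nu_mem_om n, h⟩⟩
  rw [Bool.eq_iff_iff, rb_iff, rb_iff, this]

theorem hgV_eq (b : N) : hgV b = vx (rb b 0) (hgR b) := by
  unfold hgV vx
  congr 1
  have h0 : rb b 0 = true ↔ E emp b := by
    unfold rb
    simp only [decide_eq_true_eq]
    exact Iff.rfl
  by_cases h : E emp b
  · rw [if_pos (h0.2 h)]
    refine ext fun z => ?_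
    rw [mem_sep' inferInstance]
    exact ⟨fun h' => h'.1, fun h' => ⟨h', h⟩⟩
  · rw [if_neg (fun h' => h (h0.1 h'))]
    refine ext fun z => ?_
    rw [mem_sep' inferInstance]
    exact ⟨fun h' => absurd h'.2 h, fun h' => absurd h' (not_mem_emp z)⟩

theorem hgV_isV (b : N) : ∃ x, Sub x om ∧ (hgV b = opair emp x ∨ hgV b = opair (sing emp) x) := by
  refine ⟨hgR b, hgR_sub b, ?_⟩
  rw [hgV_eq]
  unfold vx
  cases rb b 0
  · left; simp
  · right; simp

end

theorem ao_hg4 (hcba : CBAStmt) (hbf : HBFStmt) (hrb : HRBStmt) (std : STDStmt) : HG4Stmt := by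
  intro Z H hN
  obtain ⟨f, mf, hf⟩ := hN.vs
  refine hg2_mono ?_ (hbf 2 f mf)
  rintro N _ _ hw ⟨F, dF, sF⟩ c
  have hS : Std N := std N hw
  have D := hg2_two dF
  have _ : ∀ {n : ℕ} {t s : (Fin n → N) → N} [DfT t] [DfT s],
      DfT (fun v => F ![t v, s v]) := fun {n} {t s} ht hs => D.comp2 (f := fun a b => F ![a, b]) ht hs
  have _ : ∀ {n : ℕ} {t : (Fin n → N) → N} [DfT t],
      DfT (fun v => hgV (t v)) := fun {n} {t} ht => hgV_df.comp1 ht
  refine ⟨fun a => img om (fun k => hgV (F ![a, sing k])), ?_, fun a ha => ⟨?_, ?_, ?_⟩⟩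
  · show DfT (fun w : Fin 1 → N => img om (fun k => hgV (F ![w 0, sing k])))
    infer_instance
  · exact (hcba N).img _ (by show DfT (fun w : Fin 1 → N => hgV (F ![a, sing (w 0)])); infer_instance)
      (hcba N).om
  · intro v hv
    rw [mem_img' (by show DfT (fun w : Fin 1 → N => hgV (F ![a, sing (w 0)])); infer_instance)] at hv
    obtain ⟨k, hk, rfl⟩ := hv
    exact hgV_isV _
  · refine gfs_GV_mono Z ?_ (hf (rb a))
    rintro v ⟨k, hk⟩
    have h1 := sF ![a, sing (nu k)]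
    rw [hg2_rb2, (hrb N hS).2.2 k] at h1
    refine ⟨hgR (F ![a, sing (nu k)]), hgR_sub _, ?_, ?_⟩
    · rw [hgR_rb, hk, h1.2]
      rfl
    · have e : vx v.1 (hgR (F ![a, sing (nu k)])) = hgV (F ![a, sing (nu k)]) := by
        rw [hgV_eq, h1.2, hk]
        rfl
      rw [e, mem_img' (by show DfT (fun w : Fin 1 → N => hgV (F ![a, sing (w 0)])); infer_instance)]
      exact ⟨nu k, CUR.nu_mem_om k, rfl⟩

theorem ao_hg1 (hcc : HCCStmt) (hbf : HBFStmt) (hks : HKSStmt) (hrb : HRBStmt) (hg2 : HG2Stmt)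
    (hg3 : HG3Stmt) (std : STDStmt) : HG1Stmt := by
  intro Z H hN
  obtain ⟨f, mf, hf⟩ := hN.vs
  obtain ⟨fm, mm, hm⟩ := hN.mul
  obtain ⟨fi, mi, hi⟩ := hN.inv
  refine hg2_mono ?_ (hcc.1 _ _ (hbf 2 f mf) (hcc.1 _ _ (hbf 2 fm mm) (hcc.1 _ _ (hbf 1 fi mi)
    (hcc.1 _ _ (hg2 Z H hN) (hg3 Z H hN)))))
  rintro N _ _ hw ⟨⟨F, dF, sF⟩, ⟨Fm, dFm, sFm⟩, ⟨Fi, dFi, sFi⟩, h2, h3⟩ c g
  have hS : Std N := std N hw
  obtain ⟨g2, _, h2⟩ := h2 c
  obtain ⟨g3, _, h3⟩ := h3 c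
  constructor
  · rintro ⟨a, ha, rfl⟩
    refine gfs_GV_mono Z ?_ (hf (rb a))
    rintro v ⟨k, hk⟩
    have h1 := sF ![a, sing (nu k)]
    rw [hg2_rb2, (hrb N hS).2.2 k] at h1
    refine ⟨hgR (F ![a, sing (nu k)]), hgR_sub _, ?_⟩
    rw [hgR_rb, hk, h1.2]
    rfl
  · intro hg
    have hmul : ∀ x y : Gr Z, (∃ a, E a (CUR.KS c) ∧ H (rb a) = x) →
        (∃ a, E a (CUR.KS c) ∧ H (rb a) = y) → ∃ a, E a (CUR.KS c) ∧ H (rb a) = x * y := by
      rintro x y ⟨a, ha, rfl⟩ ⟨b, hb, rfl⟩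
      have h1 := sFm ![a, b]
      rw [hg2_rb2] at h1
      obtain ⟨⟨r, hr⟩, h4⟩ := hm ![rb a, rb b]
      refine ⟨Fm ![a, b], ((hks N c).2 _).2 ⟨h1.1, r, by rw [h1.2, hr]⟩, ?_⟩
      rw [h1.2, h4]
      rfl
    have hinv : ∀ x : Gr Z, (∃ a, E a (CUR.KS c) ∧ H (rb a) = x) →
        ∃ a, E a (CUR.KS c) ∧ H (rb a) = x⁻¹ := by
      rintro x ⟨a, ha, rfl⟩
      have h1 := sFi ![a]
      have e : (fun i : Fin 1 => rb (![a] i)) = ![rb a] := by
        funext i; fin_cases i; rfl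
      rw [e] at h1
      obtain ⟨⟨r, hr⟩, h4⟩ := hi ![rb a]
      refine ⟨Fi ![a], ((hks N c).2 _).2 ⟨h1.1, r, by rw [h1.2, hr]⟩, ?_⟩
      rw [h1.2, h4]
      rfl
    have he : Sub (emp : N) om := fun z hz => absurd hz (not_mem_emp z)
    have hone : ∃ a, E a (CUR.KS c) ∧ H (rb a) = (1 : Gr Z) := by
      obtain ⟨h5, _⟩ := h2 emp he []
      have h6 := hmul _ _ ⟨_, h5⟩ (hinv _ ⟨_, h5⟩)
      rwa [mul_inv_cancel] at h6
    refine Subgroup.closure_induction (p := fun x _ => ∃ a, E a (CUR.KS c) ∧ H (rb a) = x)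
      ?_ hone ?_ ?_ hg
    · rintro x (⟨⟨i, X⟩, s, ⟨y, hy, hy2⟩, rfl⟩ | ⟨Y, W, n, ⟨y, hy, hy2⟩, ⟨w, hw1, hw2⟩, rfl⟩)
      · obtain ⟨h5, h6⟩ := h2 y hy s
        simp only at hy2
        rw [← hy2]
        cases i
        · exact ⟨_, h5⟩
        · exact ⟨_, h6⟩
      · simp only at hy2 hw2
        rw [← hy2, ← hw2]
        exact ⟨_, h3 y w hy hw1 n⟩
    · intro x y _ _ hx hy
      exact hmul x y hx hy
    · intro x _ hx
      exact hinv x hx

end AO
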