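import Pool.Agent.H74.AO.HFin0
import Pool.Agent.H74.AO.HG4
import Pool.Agent.H93.MA.CBA
import Pool.Agent.H98.AO.Iface

/-!
The Borel part: the final theorem.
-/

set_option linter.unusedVariables false
set_option linter.unusedSectionVars false
set_option synthInstance.maxSize 100000

namespace AO

open SW MeasureTheory

theorem hgr_all : HGRStmt :=
  hf_hgr (ao_hg1 ao_hcc hf_hbf ao_hks ao_hrb hf_hg2 hf_hg3 hf_std)
    (ao_hg4 ma_cba hf_hbf ao_hrb hf_std)

/-- the relation `ZZ` is definable in well-founded models with suitable sets -/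
theorem zd_all : ZDXStmt := hf_zd

end AO
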