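import Pool.Agent.H36.AO.PStmts

/-!
A new real of the second side has at most one old neighbour.
-/

set_option linter.unusedVariables false
set_option linter.unusedSectionVars false
set_option synthInstance.maxSize 100000

namespace AO.BP

open SW

section
variable {M : Type} [SetStr M] [ZF M]

theorem Fl_take {P σ p : M} {s : List ℕ} (h : Fl P σ p s) (n : ℕ) : Fl P σ p (s.take n) := by
  intro k v hk
  refine h k v ?_
  rw [List.getElem?_take] at hk
  split_ifs at hk with hk'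
  · exact hk

theorem Fl_up {F : FPoset M} {G : M → Prop} (hv : VlFac F G) {σ p q : M} {s : List ℕ}
    (h : Fl F.P σ p s) (hq : E q F.P) (hpq : Sub p q) : Fl F.P σ q s :=
  fun k v hk => hv.up _ _ _ _ (h k v hk) hq hpq

end

theorem ao_kla (hGCF : GCFStmt) (hVLF : VLFStmt) (hDFO : DFOStmt) (hTRU : TRUStmt)
    (hKCA : KCAStmt) (hQGN : QGNStmt) : KLAStmt := by
  intro M _ _ F G X hmr hri hG hX σ τ τ' hσ hτ hτ' hnew hz hz'
  have hv := hVLF M F G hri hG
  have hd := hDFO M F.P hmr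
  obtain ⟨t, a, ht, ha, hadm, m, hm⟩ := hz
  obtain ⟨t', a', ht', ha', hadm', m', hm'⟩ := hz'
  have haa : a' = a := hGCF.inj _ _ (ha'.symm.trans ha)
  subst haa
  by_contra hne
  have hne' : ∃ l0, t l0 ≠ t' l0 := by
    by_contra h
    push Not at h
    exact hne (by rw [ht, ht', funext h])
  obtain ⟨l0, hl0⟩ := hne'
  have subP : Sub (prod om (PD F.P X)) (prod om F.P) := by
    intro z hz
    obtain ⟨j, q, hj, hq, rfl⟩ := mem_prod'.1 hz
    rw [mem_prod]
    exact ⟨hj, (mem_PD.1 hq).1⟩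
  obtain ⟨g1, hg1, hok1⟩ := hTRU M F G hmr hri hG σ τ a' t m hσ (hτ.trans subP) ha ht hadm hm
  obtain ⟨g2, hg2, hok2⟩ := hTRU M F G hmr hri hG σ τ' a' t' m' hσ (hτ'.trans subP) ha ht' hadm' hm'
  have dir : ∀ p q, G p → G q → ∃ r, G r ∧ Sub p r ∧ Sub q r := by
    intro p q hp hq
    obtain ⟨r, hr, h1, h2⟩ := hG.dir p q hp hq
    exact ⟨r, hr, (hri _ _).1 h1, (hri _ _).1 h2⟩
  have up : ∀ p q, G p → E q F.P → Sub q p → G q := fun p q hp hq h =>
    hG.up p q hp hq ((hri _ _).2 h)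
  have rsG : ∀ p, G p → G (rst p X) := fun p hp =>
    up _ _ hp (mem_PD.1 (hX.rs p (hG.sub _ hp))).1 (hX.le p)
  obtain ⟨g12, hg12, hs1, hs2⟩ := dir _ _ hg1 hg2
  obtain ⟨g, hg, hs, hfl⟩ := hv.seg σ a' (max (max m m') (l0 + 1)) g12 hσ ha hg12
  have hs1' : Sub g1 g := hs1.trans hs
  have hs2' : Sub g2 g := hs2.trans hs
  -- the approximation of `σ` over `X`
  have hρm : ∀ z, E z (sep (prod om (PD F.P X)) (fun z => ∃ j p : M, z = opair j (rst p X) ∧
      E p F.P ∧ Sub g p ∧ Fo F.P σ p j)) ↔ E z (prod om (PD F.P X)) ∧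
      ∃ j p : M, z = opair j (rst p X) ∧ E p F.P ∧ Sub g p ∧ Fo F.P σ p j :=
    fun z => mem_sep' inferInstance
  generalize sep (prod om (PD F.P X)) (fun z => ∃ j p : M, z = opair j (rst p X) ∧
      E p F.P ∧ Sub g p ∧ Fo F.P σ p j) = ρ at hρm
  have hρ : Sub ρ (prod om (PD F.P X)) := fun z hz => ((hρm z).1 hz).1
  have h1 : ∃ j, vl G ρ j = true ∧ vl G σ j = false := by
    by_contra hcon
    push Not at hcon
    apply hnew ρ hρ
    funext j
    by_cases h2 : vl G σ j = true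
    · rw [h2]
      obtain ⟨p, hp, hfo⟩ := (hv.tr σ hσ j).1 h2
      obtain ⟨p', hp', h3, h4⟩ := dir _ _ hp hg
      unfold vl
      simp only [decide_eq_true_eq]
      refine ⟨rst p' X, rsG _ hp', (hρm _).2 ⟨?_, nu j, p', rfl, hG.sub _ hp', h4, ?_⟩⟩
      · rw [mem_prod]
        exact ⟨CUR.nu_mem_om j, hX.rs _ (hG.sub _ hp')⟩
      · exact hv.up _ _ _ _ hfo (hG.sub _ hp') h3
    · have h3 : vl G σ j = false := by simpa using h2
      rw [h3]
      by_contra h4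
      exact hcon j (by simpa using h4) h3
  obtain ⟨j, hj1, hj2⟩ := h1
  obtain ⟨k, v, rfl⟩ : ∃ k v, j = Nat.pair k v := ⟨j.unpair.1, j.unpair.2, (Nat.pair_unpair j).symm⟩
  have hakv : a' k ≠ v := by
    rw [ha] at hj2
    unfold gc at hj2
    simpa [Nat.unpair_pair] using hj2
  obtain ⟨p, hp, hgp, hfo, hrp⟩ : ∃ p, E p F.P ∧ Sub g p ∧ Fo F.P σ p (nu (Nat.pair k v)) ∧
      G (rst p X) := by
    unfold vl at hj1
    simp only [decide_eq_true_eq] at hj1
    obtain ⟨q, hq, hq2⟩ := hj1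
    obtain ⟨_, j, p, e, h2, h3, h4⟩ := (hρm _).1 hq2
    rw [opair_inj] at e
    obtain ⟨rfl, rfl⟩ := e
    exact ⟨p, h2, h3, h4, hq⟩
  -- the segments of `τ` and `τ'`
  obtain ⟨q1, hq1, hq1', hq1s, hq1f⟩ := hv.segX X τ t (k + 2) (rst g X) hX hτ ht (rsG _ hg)
    (hX.rs _ (hG.sub _ hg))
  obtain ⟨q2, hq2, hq2', hq2s, hq2f⟩ := hv.segX X τ' t' (k + 2) q1 hX hτ' ht' hq1 hq1'
  have hq2f' : Fl F.P τ q2 (ini t (k + 2)) := Fl_up hv hq1f (hG.sub _ hq2) hq2s
  obtain ⟨p', hp', hpp', hqp', ⟨s', hs'l, hs'f⟩, hrp'⟩ := hQGN M F G X hri hG hX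
    (fun r => ∃ s : List ℕ, s.length = k + 1 ∧ Fl F.P σ r s) (hd.fl σ (k + 1)) p q2 hp hrp hq2 hq2'
    (by
      intro r hr hpr
      obtain ⟨r', s, u, h2, h3, h4, h5, h6, h7⟩ := hok1.tot r hr (hs1'.trans (hgp.trans hpr)) (k + 1)
      exact ⟨r', h2, h3, s, h4, h6⟩)
  obtain ⟨q3, hq3, hq3g, hq3q⟩ := dir _ _ hg hq2
  obtain ⟨q0, hq0, hq0s, hq0f⟩ := hv.seg σ a' (k + 1) q3 hσ ha hq3
  -- the list of `p'` differs from the true list at `k`
  have hg1p' : Sub g1 p' := hs1'.trans (hgp.trans hpp')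
  have hg2p' : Sub g2 p' := hs2'.trans (hgp.trans hpp')
  have hg1q0 : Sub g1 q0 := hs1'.trans (hq3g.trans hq0s)
  have hg2q0 : Sub g2 q0 := hs2'.trans (hq3g.trans hq0s)
  have hs'k : s'[k]? = some v := by
    have h2 : k < s'.length := by omega
    have h3 : s'[k]? = some s'[k] := List.getElem?_eq_getElem h2
    rw [h3]
    congr 1
    exact hok1.ons p' hp' hg1p' k _ _ (hs'f k _ h3) (hv.up _ _ _ _ hfo hp' hpp')
  have hex : ∃ j0, j0 ≤ k ∧ s'[j0]? ≠ some (a' j0) := ⟨k, le_rfl, by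
    rw [hs'k]; intro h; exact hakv (Option.some.inj h).symm⟩
  classical
  obtain ⟨hj0k, hj0⟩ := Nat.find_spec hex
  have hmin : ∀ j < Nat.find hex, s'[j]? = some (a' j) := by
    intro j hj
    by_contra h
    exact Nat.find_min hex hj ⟨by omega, h⟩
  generalize Nat.find hex = j0 at hj0k hj0 hmin
  have hn1 : max (max m m') (l0 + 1) ≤ j0 := by
    by_contra hlt
    push Not at hlt
    apply hj0
    have h2 : j0 < s'.length := by omega
    have h3 : s'[j0]? = some s'[j0] := List.getElem?_eq_getElem h2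
    rw [h3]
    congr 1
    exact hok1.ons p' hp' hg1p' j0 _ _ (hs'f j0 _ h3)
      (hv.up _ _ _ _ (hfl j0 (a' j0) (hGCF.get _ _ _ hlt)) hp' (hgp.trans hpp'))
  have hm1 : m ≤ j0 := le_trans (le_trans (le_max_left _ _) (le_max_left _ _)) hn1
  have hm2 : m' ≤ j0 := le_trans (le_trans (le_max_right _ _) (le_max_left _ _)) hn1
  have hl1 : l0 < j0 + 1 := by
    have := le_trans (le_max_right (max m m') (l0 + 1)) hn1
    omega
  -- the two lists of length `j0 + 1`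
  have hA : Fl F.P σ q0 (ini a' (j0 + 1)) := by
    have := Fl_take hq0f (j0 + 1)
    rwa [hGCF.take _ _ _ (by omega)] at this
  have hB : Fl F.P σ p' (s'.take (j0 + 1)) := Fl_take hs'f _
  have hlA : (ini a' (j0 + 1)).length = j0 + 1 := hGCF.len _ _
  have hlB : (s'.take (j0 + 1)).length = j0 + 1 := by
    rw [List.length_take]; omega
  have htk : (ini a' (j0 + 1)).take j0 = (s'.take (j0 + 1)).take j0 := by
    rw [hGCF.take _ _ _ (by omega), List.take_take, min_eq_left (by omega)]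
    apply List.ext_getElem?
    intro i
    by_cases hi : i < j0
    · rw [hGCF.get _ _ _ hi, List.getElem?_take, if_pos hi, hmin i hi]
    · rw [List.getElem?_eq_none (by rw [hGCF.len]; omega),
        List.getElem?_eq_none (by rw [List.length_take]; omega)]
  have hAB : ini a' (j0 + 1) ≠ s'.take (j0 + 1) := by
    intro h
    apply hj0
    have h2 : (ini a' (j0 + 1))[j0]? = (s'.take (j0 + 1))[j0]? := by rw [h]
    rw [hGCF.get _ _ _ (by omega), List.getElem?_take, if_pos (by omega)] at h2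
    exact h2.symm
  have key : ∀ (τ g : M) (t : ℕ → ℕ) (m : ℕ), OK F.P g σ τ m → Sub g p' → Sub g q0 → m ≤ j0 →
      Fl F.P τ q2 (ini t (k + 2)) →
      (Nat.unpair ((ini a' (j0 + 1)).getD j0 0)).1 = lc (ini t (j0 + 1)) := by
    intro τ g t m hok h2 h3 h4 h5
    have h6 : Fl F.P τ q2 (ini t (j0 + 2)) := by
      have := Fl_take h5 (j0 + 2)
      rwa [hGCF.take _ _ _ (by omega)] at this
    have h7 := hKCA M F.P g σ τ q0 p' m j0 _ _ (ini t (j0 + 2)) hok (hG.sub _ hq0) hp' h3 h2 hA hB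
      hlA hlB htk hAB h4 (hGCF.len _ _) (Fl_up hv h6 (hG.sub _ hq0) (hq3q.trans hq0s))
      (Fl_up hv h6 hp' hqp')
    rwa [hGCF.take _ _ _ (by omega)] at h7
  have e1 := key τ g1 t m hok1 hg1p' hg1q0 hm1 hq2f'
  have e2 := key τ' g2 t' m' hok2 hg2p' hg2q0 hm2 hq2f
  have e3 := hGCF.lc _ _ (e1.symm.trans e2)
  exact hl0 ((hGCF.eq _ _ _).1 e3 l0 hl1)

end AO.BP
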