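import Pool.Agent.H74.AO.HDefs

/-!
The statements of the modules of the Borel part.
-/

set_option linter.unusedVariables false
set_option linter.unusedSectionVars false
set_option synthInstance.maxSize 100000

namespace AO

open SW MeasureTheory

/-! ### measurable functions and free groups -/

/-- HMG: functions with measurable graph are measurable -/
def HMGStmt : Prop := ∀ (α β : Type) [MeasurableSpace α] [StandardBorelSpace α]
  [MeasurableSpace β] [StandardBorelSpace β] (f : α → β),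
  MeasurableSet {t : α × β | t.2 = f t.1} → Measurable f

/-- HTV: trivial words form a measurable set -/
def HTVStmt : Prop := ∀ (Ω Λ : Type) [MeasurableSpace Ω] (L : List ((Ω → Λ) × Bool)),
  (∀ a ∈ L, ∀ b ∈ L, MeasurableSet {ω | a.1 ω = b.1 ω}) →
  MeasurableSet {ω | FreeGroup.mk (L.map (fun a => (a.1 ω, a.2))) = 1}

open Classical in
/-- HTC: the same for words depending on finitely many measurable conditions -/
def HTCStmt : Prop := ∀ (Ω Λ : Type) [MeasurableSpace Ω]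
  (L : List (Set Ω × List ((Ω → Λ) × Bool))), (∀ a ∈ L, MeasurableSet a.1) →
  (∀ a ∈ L, ∀ b ∈ L, ∀ x ∈ a.2, ∀ y ∈ b.2, MeasurableSet {ω | x.1 ω = y.1 ω}) →
  MeasurableSet {ω | (L.map (fun a => if ω ∈ a.1 then
    FreeGroup.mk (a.2.map (fun x => (x.1 ω, x.2))) else 1)).prod = 1}

/-- HWP: the word problem of the group `Gr Z` is measurable -/
def HWPStmt : Prop := ∀ Z : Rl → Rl → Prop, MZ Z → ∀ p : Pat,
  MeasurableSet {V : ℕ → Vx | wp V p ∈ Tv Z}

/-! ### patterns and supports -/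

/-- elementary facts about patterns -/
structure PatFacts : Prop where
  cat : ∀ V p q, wp V (p ++ q) = wp V p * wp V q
  inv : ∀ p, ∃ q, ∀ V, wp V q = (wp V p)⁻¹
  shift : ∀ (σ : ℕ → ℕ) p, ∃ q, ∀ V, wp V q = wp (fun i => V (σ i)) p
  code : ∀ p, ∃ n, pdec n = p
  si : ∀ Z V F p, SI V F p → (QuotientGroup.mk (wp V p) : Gr Z) ∈ GV Z F
  sur : ∀ (Z : Rl → Rl → Prop) (V : ℕ → Vx) (J : Finset ℕ) (g : Gr Z), g ∈ GV Z (fv V J) →
    ∃ n, SI V (fv V J) (pdec n) ∧ el Z V n = g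

/-- HPT -/
def HPTStmt : Prop := PatFacts

/-- HML: products of patterns over different assignments -/
def HMLStmt : Prop := ∀ Z : Rl → Rl → Prop, MZ Z →
  (∀ p q : ℕ, MeasurableSet {t : (ℕ → Vx) × (ℕ → Vx) | el Z t.1 p = el Z t.2 q}) ∧
  ∀ p q s : ℕ, MeasurableSet {t : (ℕ → Vx) × (ℕ → Vx) × (ℕ → Vx) |
    el Z t.1 p * el Z t.2.1 q = el Z t.2.2 s}

/-- HSP: the set of the `V` such that `el V p` is in the subgroup of a given part of `V` -/
def HSPStmt : Prop := ∀ Z : Rl → Rl → Prop, MZ Z → ∀ (p : ℕ) (J : Finset ℕ),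
  MeasurableSet {V : ℕ → Vx | el Z V p ∈ GV Z (fv V J)}

/-- HLS: least supports -/
def HLSStmt : Prop := ∀ (Z : Rl → Rl → Prop) (g : Gr Z), ∃ F : Finset Vx, g ∈ GV Z ↑F ∧
  ∀ W : Set Vx, g ∈ GV Z W → ↑F ⊆ W

/-! ### canonical codes -/

/-- HCU: every element has exactly one canonical code -/
def HCUStmt : Prop := ∀ (Z : Rl → Rl → Prop) (ι : Vx → ℝ), Function.Injective ι → ∀ g : Gr Z,
  ∃! c : Cd, CCd ι Z c ∧ el Z c.2.2 c.2.1 = g

/-- HCM: the set of canonical codes is measurable -/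
def HCMStmt : Prop := ∀ (Z : Rl → Rl → Prop) (ι : Vx → ℝ), MZ Z → Measurable ι →
  Function.Injective ι → MeasurableSet {c : Cd | CCd ι Z c}

/-- HCF: the canonical code is a measurable function -/
def HCFStmt : Prop := ∀ (Z : Rl → Rl → Prop) (ι : Vx → ℝ), MZ Z → Measurable ι →
  Function.Injective ι → ∃ f : ℕ × (ℕ → Vx) → Cd, Measurable f ∧
    ∀ p V, CCd ι Z (f (p, V)) ∧ el Z (f (p, V)).2.2 (f (p, V)).2.1 = el Z V p

/-- HBJ: a measurable bijection from the real numbers to the canonical codes -/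
def HBJStmt : Prop := ∀ (Z : Rl → Rl → Prop) (ι : Vx → ℝ), MZ Z → Measurable ι →
  Function.Injective ι → Nonempty (ℝ ≃ᵐ {c : Cd // CCd ι Z c})

/-- HNR: the group on the real numbers -/
def HNRStmt : Prop := ∀ Z : Rl → Rl → Prop, MZ Z → ∃ H : ℝ → Gr Z, NR Z H

/-- HCT: cuts -/
def HCTStmt : Prop := Measurable cutc ∧ ∃ d : Rl → ℝ, Measurable d ∧ ∀ x, d (cutc x) = x

/-- HNC: the group on the set of cuts -/
def HNCStmt : Prop := ∀ Z : Rl → Rl → Prop, MZ Z → ∃ H : Rl → Gr Z, NC Z H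

/-- HZM: the relation is measurable -/
def HZMStmt : Prop := MZ ZZ

/-! ### analytic sets, boxes -/

/-- HTR: analytic sets are given by trees -/
def HTRStmt : Prop := ∀ (k : ℕ) (A : Set (Fin k → Rl)), AnalyticSet A → ∃ a R P, Tree k A a R P

/-- HBX: measurable sets are projections of closed sets -/
def HBXStmt : Prop := ∀ D : Set (Fin 3 → ℝ), MeasurableSet D →
  ∃ B : Bxs, ∀ x, x ∈ D ↔ ∃ u : ℕ → ℕ, ∀ n, ¬ B.In n x u

/-- HBA: the points outside all boxes, coded by four sequences, form an analytic set -/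
def HBAStmt : Prop := ∀ B : Bxs, AnalyticSet {w : Fin 4 → Rl | ∃ (x : Fin 3 → ℝ) (u : ℕ → ℕ),
  w 0 = cutc (x 0) ∧ w 1 = cutc (x 1) ∧ w 2 = cutc (x 2) ∧
  (∀ k v, w 3 (Nat.pair k v) = true ↔ u k = v) ∧ ∀ n, ¬ B.In n x u}

/-! ### transfer to a model -/

/-- HCC: combinations -/
def HCCStmt : Prop :=
  (∀ Q Q' : ∀ (N : Type) [SetStr N] [ZFC N], Prop, Cod (fun N _ _ => Q N) →
    Cod (fun N _ _ => Q' N) → Cod (fun N _ _ => Q N ∧ Q' N)) ∧
  ∀ Q : ℕ → ∀ (N : Type) [SetStr N] [ZFC N], Prop, (∀ i, Cod (fun N _ _ => Q i N)) →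
    Cod (fun N _ _ => ∀ i, Q i N)

/-- HRB: the sequence coded by a set of natural numbers -/
def HRBStmt : Prop := ∀ (N : Type) [SetStr N] [ZF N], Std N →
  (∀ x y : N, Sub x om → Sub y om → rb x = rb y → x = y) ∧
  (∀ x : N, rb (inter x om) = rb x) ∧ ∀ k, rb (sing (nu k) : N) = sgl k

/-- HAB: a branch of a relation of the model gives a branch in the model -/
def HABStmt : Prop := ∀ (N : Type) [SetStr N] [ZFC N], WFd N → ∀ X R a : N,
  (∃ g : ℕ → N, g 0 = a ∧ ∀ n, E (g n) X ∧ E (opair (g n) (g (n + 1))) R) →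
  ∃ f : N, app f emp = a ∧
    ∀ n, E n om → E (app f n) X ∧ E (opair (app f n) (app f (suc n))) R

/-- HAD: analytic relations are definable -/
def HADStmt : Prop := ∀ (k : ℕ) (A : Set (Fin k → Rl)), AnalyticSet A →
  Cod (fun N _ _ => Df (fun v : Fin k → N => (fun i => rb (v i)) ∈ A))

/-- HAE: analytic relations have witnesses in the model -/
def HAEStmt : Prop := ∀ (k : ℕ) (A : Set (Fin (k + 1) → Rl)), AnalyticSet A →
  Cod (fun N _ _ => ∀ (v : Fin k → N) (y : Rl),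
    (Fin.snoc (fun i => rb (v i)) y : Fin (k + 1) → Rl) ∈ A →
    ∃ y' : N, Sub y' om ∧ (Fin.snoc (fun i => rb (v i)) (rb y') : Fin (k + 1) → Rl) ∈ A)

/-- HBF: measurable functions are definable -/
def HBFStmt : Prop := ∀ (k : ℕ) (f : (Fin k → Rl) → Rl), Measurable f →
  Cod (fun N _ _ => ∃ F : (Fin k → N) → N, DfT F ∧
    ∀ v, Sub (F v) om ∧ rb (F v) = f (fun i => rb (v i)))

/-- HCD: the codes for the real numbers -/
def HCDStmt : Prop := Cod (fun N _ _ => Nonempty (CUR.Codes N))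

/-- HKS: cuts in the model -/
def HKSStmt : Prop := ∀ (N : Type) [SetStr N] [ZF N] (c : CUR.Codes N),
  (∀ (a : N) x, CUR.IsCutOf a x ↔ Sub a om ∧ rb a = cutc x) ∧
  ∀ a : N, E a (CUR.KS c) ↔ Sub a om ∧ ∃ x, rb a = cutc x

/-- `L` is the order of the cuts -/
def IsLe {N : Type} [SetStr N] [ZF N] (L : N) : Prop :=
  ∀ (a b : N) x y, CUR.IsCutOf a x → CUR.IsCutOf b y → (PairIn a b L ↔ x ≤ y)

/-- HRL: the real numbers of the model -/
def HRLStmt : Prop := ∀ (N : Type) [SetStr N] [ZF N] (c : CUR.Codes N),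
  ∃ P Q L z u : N, IsRealNumbers (CUR.KS c) P Q L z u ∧ IsLe L

/-- HUF: functions coded by sets of natural numbers -/
def HUFStmt : Prop := Cod (fun N _ _ => ∀ y : N, Sub y om → ∀ u : ℕ → ℕ,
  (∀ k v, rb y (Nat.pair k v) = true ↔ u k = v) →
  ∃ u' : N, AO.IsFunction u' om om ∧ ∀ k v, PairIn (nu k) (nu v) u' ↔ u k = v)

/-- HCN: the internal closed set given by a list of boxes, and its projection -/
def HCNStmt : Prop := ∀ (D : Set (Fin 3 → ℝ)) (B : Bxs),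
  (∀ x, x ∈ D ↔ ∃ u : ℕ → ℕ, ∀ n, ¬ B.In n x u) →
  Cod (fun N _ _ => ∀ c : CUR.Codes N, ∃ C : N,
    (∀ (a b d u' : N) (x : Fin 3 → ℝ) (u : ℕ → ℕ), CUR.IsCutOf a (x 0) → CUR.IsCutOf b (x 1) →
      CUR.IsCutOf d (x 2) → AO.IsFunction u' om om → (∀ k v, PairIn (nu k) (nu v) u' ↔ u k = v) →
      (PairIn (opair (opair a b) d) u' C ↔ ∀ n, ¬ B.In n x u)) ∧
    ∀ (a b d : N) (x : Fin 3 → ℝ), CUR.IsCutOf a (x 0) → CUR.IsCutOf b (x 1) →
      CUR.IsCutOf d (x 2) → (x ∈ D ↔ ∃ u', AO.IsFunction u' om om ∧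
        PairIn (opair (opair a b) d) u' C))

/-- HAN: measurable sets of triples of real numbers give analytic sets in the model -/
def HANStmt : Prop := ∀ D : Set (Fin 3 → ℝ), MeasurableSet D →
  Cod (fun N _ _ => ∀ (c : CUR.Codes N) (L : N), IsLe L →
    ∀ m : N, (∀ t, E t m ↔ ∃ (a b d : N) (x : Fin 3 → ℝ),
      CUR.IsCutOf a (x 0) ∧ CUR.IsCutOf b (x 1) ∧ CUR.IsCutOf d (x 2) ∧
      t = opair (opair a b) d ∧ x ∈ D) →
    IsAnalytic (CUR.KS c) L m)

/-! ### the group in a model -/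

/-- HGM: the operation -/
def HGMStmt : Prop := ∀ (Z : Rl → Rl → Prop) (H : Rl → Gr Z), NC Z H →
  Cod (fun N _ _ => ∀ (c : CUR.Codes N) (L : N), IsLe L →
    ∃ m : N, (∀ t, E t m ↔ ∃ a b d, E a (CUR.KS c) ∧ E b (CUR.KS c) ∧
      E d (CUR.KS c) ∧ t = opair (opair a b) d ∧ H (rb a) * H (rb b) = H (rb d)) ∧
      IsAnalytic (CUR.KS c) L m)

/-- HG1: the elements of the group in the model -/
def HG1Stmt : Prop := ∀ (Z : Rl → Rl → Prop) (H : Rl → Gr Z), NC Z H →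
  Cod (fun N _ _ => ∀ (c : CUR.Codes N) (g : Gr Z),
    (∃ a, E a (CUR.KS c) ∧ H (rb a) = g) ↔ g ∈ GV Z (VN N))

/-- HG2: the generators `x` -/
def HG2Stmt : Prop := ∀ (Z : Rl → Rl → Prop) (H : Rl → Gr Z), NC Z H →
  Cod (fun N _ _ => ∀ (c : CUR.Codes N),
    ∃ f : N → N → N → N, DfT (fun v : Fin 3 → N => f (v 0) (v 1) (v 2)) ∧
    ∀ (x : N), Sub x om → ∀ s : Str,
      (E (f emp x (nu (sc s))) (CUR.KS c) ∧
        H (rb (f emp x (nu (sc s)))) = GX Z (false, rb x) s) ∧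
      (E (f (sing emp) x (nu (sc s))) (CUR.KS c) ∧
        H (rb (f (sing emp) x (nu (sc s)))) = GX Z (true, rb x) s))

/-- HG3: the generators `t` -/
def HG3Stmt : Prop := ∀ (Z : Rl → Rl → Prop) (H : Rl → Gr Z), NC Z H →
  Cod (fun N _ _ => ∀ (c : CUR.Codes N),
    ∃ f : N → N → N → N, DfT (fun v : Fin 3 → N => f (v 0) (v 1) (v 2)) ∧
    ∀ (x y : N), Sub x om → Sub y om → ∀ n : ℕ, E (f x y (nu n)) (CUR.KS c) ∧
      H (rb (f x y (nu n))) = GT Z (rb x) (rb y) n)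

/-- HG4: supports -/
def HG4Stmt : Prop := ∀ (Z : Rl → Rl → Prop) (H : Rl → Gr Z), NC Z H →
  Cod (fun N _ _ => ∀ (c : CUR.Codes N),
    ∃ f : N → N, Fn1 f ∧ ∀ a, E a (CUR.KS c) → Cb (f a) ∧ IsV (f a) ∧
      H (rb a) ∈ GV Z (VX (f a)))

/-- HZD: the relation is definable (Sigma11 is not needed: models with standard numbers) -/
def HZDStmt : Prop := ∃ R : ℕ → Set (Fin 5 → ℕ), ∀ (N : Type) [SetStr N] [ZFC N], Std N →
  (∀ i, Has N (R i)) → ZD N

end AO
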