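import Pool.Agent.H74.AO.HStmts

/-!
A branch of a relation of a well-founded model gives a branch in the model.
-/

set_option linter.unusedVariables false
set_option synthInstance.maxSize 100000

namespace AO

open SW MeasureTheory

section
variable {N : Type} [SetStr N] [ZF N]

/-- good ranking relations -/
def habG (X R f : N) : Prop := ∀ y o, E (opair y o) f → ∀ y', E y' X → E (opair y y') R →
  ∃ o', E (opair y' o') f ∧ E o' o

theorem habG_df : Cl3 (fun X R f : N => habG X R f) := by unfold habG; infer_instance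

instance {n : ℕ} {t s u : (Fin n → N) → N} [ht : DfT t] [hs : DfT s] [hu : DfT u] :
    Df (fun v => habG (t v) (s v) (u v)) := habG_df.comp3 ht hs hu

/-- ranked points -/
def habW (X R x : N) : Prop := ∃ f o, habG X R f ∧ E (opair x o) f

theorem habW_df : Cl3 (fun X R f : N => habW X R f) := by unfold habW; infer_instance

instance {n : ℕ} {t s u : (Fin n → N) → N} [ht : DfT t] [hs : DfT s] [hu : DfT u] :
    Df (fun v => habW (t v) (s v) (u v)) := habW_df.comp3 ht hs hu

theorem hab_step (X R x : N) (h : ∀ x', E x' X → E (opair x x') R → habW X R x') :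
    habW X R x := by
  have hA : ∀ x', E x' (sep X (fun z => E (opair x z) R)) ↔ E x' X ∧ E (opair x x') R :=
    fun x' => mem_sep' inferInstance
  obtain ⟨b, hb⟩ := collF (M := N) (fun x' f => habG X R f ∧ ∃ o, E (opair x' o) f)
    inferInstance (sep X (fun z => E (opair x z) R)) (by
      intro x' hx'
      obtain ⟨h1, h2⟩ := (hA x').1 hx'
      obtain ⟨f, o, hf, ho⟩ := h x' h1 h2
      exact ⟨f, hf, o, ho⟩)
  -- the union of the good relations in b
  have hB : ∀ f, E f (sep b (fun f => habG X R f)) ↔ E f b ∧ habG X R f :=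
    fun f => mem_sep' inferInstance
  obtain ⟨u, hu⟩ : ∃ u : N, ∀ z, E z u ↔ ∃ f, E f b ∧ habG X R f ∧ E z f := by
    refine ⟨sUn (sep b (fun f => habG X R f)), fun z => ?_⟩
    rw [mem_sUn]
    constructor
    · rintro ⟨f, hf, hz⟩
      exact ⟨f, ((hB f).1 hf).1, ((hB f).1 hf).2, hz⟩
    · rintro ⟨f, h1, h2, h3⟩
      exact ⟨f, (hB f).2 ⟨h1, h2⟩, h3⟩
  have huG : habG X R u := by
    intro y o hyo y' hy' hR
    obtain ⟨f, h1, h2, h3⟩ := (hu _).1 hyo
    obtain ⟨o', h4, h5⟩ := h2 y o h3 y' hy' hR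
    exact ⟨o', (hu _).2 ⟨f, h1, h2, h4⟩, h5⟩
  -- a set containing all second components
  have hK : ∀ y o, E (opair y o) u → E o (sUn (sUn u)) := by
    intro y o hyo
    rw [mem_sUn]
    refine ⟨upair y o, ?_, by simp⟩
    rw [mem_sUn]
    refine ⟨opair y o, hyo, ?_⟩
    unfold opair
    simp
  refine ⟨ins (opair x (sUn (sUn u))) u, sUn (sUn u), ?_, by simp⟩
  intro y o hyo y' hy' hR
  rw [mem_ins] at hyo
  rcases hyo with hyo | hyo
  · obtain ⟨o', h4, h5⟩ := huG y o hyo y' hy' hR
    exact ⟨o', by rw [mem_ins]; exact Or.inl h4, h5⟩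
  · obtain ⟨rfl, rfl⟩ := opair_inj.1 hyo
    obtain ⟨f, hf, hG, o', ho'⟩ := hb y' ((hA y').2 ⟨hy', hR⟩)
    have h6 : E (opair y' o') u := (hu _).2 ⟨f, hf, hG, ho'⟩
    exact ⟨o', by rw [mem_ins]; exact Or.inl h6, hK _ _ h6⟩

end

theorem ao_hab (dcx : DCXStmt) : HABStmt := by
  intro N _ _ hwf X R a ⟨g, hg0, hg⟩
  have ha : ¬ habW X R a := by
    rintro ⟨f, o, hf, ho⟩
    -- an external descending sequence
    have key : ∀ n, ∀ o : N, E (opair (g n) o) f →
        ∃ o', E (opair (g (n + 1)) o') f ∧ E o' o :=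
      fun n o h => hf (g n) o h (g (n + 1)) (hg (n + 1)).1 (hg n).2
    have : ∀ o : N, ∀ n, ¬ E (opair (g n) o) f := by
      intro o
      refine hwf.induction (C := fun o => ∀ n, ¬ E (opair (g n) o) f) o ?_
      intro o ih n hn
      obtain ⟨o', h1, h2⟩ := key n o hn
      exact ih o' h2 (n + 1) h1
    exact this o 0 (by rw [hg0]; exact ho)
  have hX : ∀ x, E x (sep X (fun x => ¬ habW X R x)) ↔ E x X ∧ ¬ habW X R x :=
    fun x => mem_sep' inferInstance
  have haX : E a X := by rw [← hg0]; exact (hg 0).1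
  obtain ⟨f, hf0, hf⟩ := dcx N (sep X (fun x => ¬ habW X R x)) a (fun x y => E (opair x y) R)
    inferInstance ((hX a).2 ⟨haX, ha⟩) (by
      intro x hx
      by_contra hcon
      push Not at hcon
      refine ((hX x).1 hx).2 (hab_step X R x ?_)
      intro x' hx' hR
      by_contra hW
      exact hcon x' ((hX x').2 ⟨hx', hW⟩) hR)
  exact ⟨f, hf0, fun n hn => ⟨((hX _).1 (hf n hn).1).1, (hf n hn).2⟩⟩

end AO
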