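import Pool.Agent.H74.AO.HC
import Pool.Agent.H98.AO.BStmts

/-!
Analytic relations in well-founded models: definability and witnesses.
-/

set_option linter.unusedVariables false
set_option linter.unusedSectionVars false
set_option synthInstance.maxSize 100000

namespace AO

open SW MeasureTheory

section
variable {N : Type} [SetStr N]

/-- the constraint of the node `s` for the coordinates `i`, `j` -/
def hadC [ZF N] (cP s i j x : N) : Prop :=
  (E (opair s (opair i (opair j (nu 1)))) cP → E j x) ∧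
  (E (opair s (opair i (opair j (nu 0)))) cP → ¬ E j x)

theorem hadC_df [ZF N] : Df (fun v : Fin 5 → N => hadC (v 0) (v 1) (v 2) (v 3) (v 4)) := by
  unfold hadC; infer_instance

instance [ZF N] {n : ℕ} {t s u x y : (Fin n → N) → N} [ht : DfT t] [hs : DfT s]
    [hu : DfT u] [hx : DfT x] [hy : DfT y] :
    Df (fun v => hadC (t v) (s v) (u v) (x v) (y v)) :=
  CUR.Df.comp5 (R := fun a b c d e => hadC a b c d e) hadC_df ht hs hu hx hy

end

section
variable {N : Type} [SetStr N] [ZFC N]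

/-- from an external branch to an internal one; `X` is the set of admissible nodes -/
theorem had_branch (hab : HABStmt) (hw : WFd N) {R : ℕ → ℕ → Prop} {cR : N}
    (hR : ∀ i j : ℕ, E (opair (nu i) (nu j)) cR ↔ R i j) (X : N) (g : ℕ → ℕ)
    (hg : ∀ n, R (g n) (g (n + 1))) (hX : ∀ n, E (nu (g n)) X) :
    ∃ f : N, app f emp = nu (g 0) ∧ ∀ n, E n om → E (app f n) X ∧
      E (opair (app f n) (app f (suc n))) cR := by
  exact hab N hw X cR (nu (g 0)) ⟨fun n => nu (g n), rfl, fun n => ⟨hX n, (hR _ _).2 (hg n)⟩⟩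

/-- from an internal branch to an external one -/
theorem had_ext (std : Std N) {R : ℕ → ℕ → Prop} {cR : N}
    (hR : ∀ i j : ℕ, E (opair (nu i) (nu j)) cR ↔ R i j) (a : ℕ) (f : N)
    (h0 : app f emp = nu a) (h : ∀ n, E n om → E (app f n) om ∧
      E (opair (app f n) (app f (suc n))) cR) :
    ∃ g : ℕ → ℕ, g 0 = a ∧ (∀ n, R (g n) (g (n + 1))) ∧ ∀ n, app f (nu n) = nu (g n) := by
  have h1 : ∀ n : ℕ, ∃ m : ℕ, app f (nu n) = nu m := fun n => std _ (h _ (CUR.nu_mem_om n)).1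
  choose g hg using h1
  refine ⟨g, ?_, fun n => ?_, hg⟩
  · have := hg 0
    have h2 : app f (nu 0) = nu a := h0
    exact (CUR.nu_inj (h2.symm.trans this)).symm
  · have := (h _ (CUR.nu_mem_om n)).2
    have h3 : suc (nu n : N) = nu (n + 1) := rfl
    rw [h3, hg n, hg (n + 1)] at this
    exact (hR _ _).1 this

end

theorem ao_had (htr : HTRStmt) (hab : HABStmt) (std : STDStmt) : HADStmt := by
  intro k A hA
  obtain ⟨a, R, P, hT⟩ := htr k A hA
  refine ⟨fun i => if i = 0 then {t | R (t 0) (t 1)} else {t | P (t 0) (t 1) (t 2) (t 3)},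
    fun N _ _ hw hc => ?_⟩
  have hS := std N hw
  obtain ⟨cR, hR⟩ := has2 (N := N) (R := R) (by simpa using hc 0)
  obtain ⟨cP, hP⟩ := has4 (N := N) (R := P) (by simpa using hc 1)
  have hdf : Df (fun v : Fin k → N => ∃ f : N, app f emp = nu a ∧ ∀ n, E n om →
      (E (app f n) om ∧ E (opair (app f n) (app f (suc n))) cR) ∧
      ∀ j, E j om → ∀ i : Fin k, hadC cP (app f n) (nu i.1) j (v i)) := by
    infer_instance
  refine hdf.congr fun v => ?_
  rw [hT.mem]
  constructor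
  · rintro ⟨g, hg0, hg1, hg2⟩
    have hXm : ∀ s, E s (sep om (fun s : N => ∀ j, E j om → ∀ i : Fin k,
        hadC cP s (nu i.1) j (v i))) ↔ E s om ∧ ∀ j, E j om → ∀ i : Fin k,
        hadC cP s (nu i.1) j (v i) := fun s => mem_sep' inferInstance
    obtain ⟨f, hf0, hf⟩ := had_branch hab hw hR (sep om (fun s : N => ∀ j, E j om →
      ∀ i : Fin k, hadC cP s (nu i.1) j (v i))) g hg1 (by
        intro n
        rw [hXm]
        refine ⟨CUR.nu_mem_om _, fun j hj i => ?_⟩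
        obtain ⟨j, rfl⟩ := hS j hj
        have h1 := hg2 n i j
        refine ⟨fun h => ?_, fun h => ?_⟩
        · exact (rb_iff _ _).1 (h1.1 ((hP _ _ _ _).1 h))
        · exact (rb_iff' _ _).1 (h1.2 ((hP _ _ _ _).1 h)))
    refine ⟨f, by rw [hf0, hg0], fun n hn => ?_⟩
    have h2 := hf n hn
    have h3 := (hXm _).1 h2.1
    exact ⟨⟨h3.1, h2.2⟩, h3.2⟩
  · rintro ⟨f, hf0, hf⟩
    obtain ⟨g, hg0, hg1, hg⟩ := had_ext hS hR a f hf0 (fun n hn => (hf n hn).1)
    refine ⟨g, hg0, hg1, fun n i j => ?_⟩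
    have h1 := (hf _ (CUR.nu_mem_om n)).2 _ (CUR.nu_mem_om j) i
    rw [hg n] at h1
    refine ⟨fun h => ?_, fun h => ?_⟩
    · exact (rb_iff _ _).2 (h1.1 ((hP _ _ _ _).2 h))
    · exact (rb_iff' _ _).2 (h1.2 ((hP _ _ _ _).2 h))

theorem ao_hae (htr : HTRStmt) (hab : HABStmt) (hrb : HRBStmt) (std : STDStmt) : HAEStmt := by
  intro k A hA
  obtain ⟨a, R, P, hT⟩ := htr (k + 1) A hA
  refine ⟨fun i => if i = 0 then {t | R (t 0) (t 1)} else {t | P (t 0) (t 1) (t 2) (t 3)},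
    fun N _ _ hw hc => ?_⟩
  have hS := std N hw
  obtain ⟨cR, hR⟩ := has2 (N := N) (R := R) (by simpa using hc 0)
  obtain ⟨cP, hP⟩ := has4 (N := N) (R := P) (by simpa using hc 1)
  intro v y hy
  obtain ⟨g, hg0, hg1, hg2⟩ := (hT.mem _).1 hy
  have hXm : ∀ s, E s (sep om (fun s : N => ∀ j, E j om → ∀ i : Fin k,
      hadC cP s (nu i.1) j (v i))) ↔ E s om ∧ ∀ j, E j om → ∀ i : Fin k,
      hadC cP s (nu i.1) j (v i) := fun s => mem_sep' inferInstance
  obtain ⟨f, hf0, hf⟩ := had_branch hab hw hR (sep om (fun s : N => ∀ j, E j om →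
    ∀ i : Fin k, hadC cP s (nu i.1) j (v i))) g hg1 (by
      intro n
      rw [hXm]
      refine ⟨CUR.nu_mem_om _, fun j hj i => ?_⟩
      obtain ⟨j, rfl⟩ := hS j hj
      have h1 := hg2 n i.castSucc j
      rw [Fin.snoc_castSucc] at h1
      refine ⟨fun h => ?_, fun h => ?_⟩
      · exact (rb_iff _ _).1 (h1.1 ((hP _ _ _ _).1 h))
      · exact (rb_iff' _ _).1 (h1.2 ((hP _ _ _ _).1 h)))
  obtain ⟨g', hg0', hg1', hg'⟩ := had_ext hS hR (g 0) f hf0
    (fun n hn => ⟨((hXm _).1 (hf n hn).1).1, (hf n hn).2⟩)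
  have hYm : ∀ j, E j (sep om (fun j : N => ∃ n, E n om ∧
      E (opair (app f n) (opair (nu k) (opair j (nu 1)))) cP)) ↔ E j om ∧ ∃ n, E n om ∧
      E (opair (app f n) (opair (nu k) (opair j (nu 1)))) cP := fun j => mem_sep' inferInstance
  refine ⟨sep om (fun j : N => ∃ n, E n om ∧
      E (opair (app f n) (opair (nu k) (opair j (nu 1)))) cP), fun j hj => ((hYm j).1 hj).1, ?_⟩
  -- the requirements along the branch are monotone
  have hmono : ∀ n m, ∀ i j b, P (g' n) i j b → P (g' (n + m)) i j b := by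
    intro n m
    induction m with
    | zero => intro i j b h; exact h
    | succ m ih => intro i j b h; exact hT.mono _ _ _ _ _ (hg1' (n + m)) (ih i j b h)
  have hY : ∀ j : ℕ, E (nu j) (sep om (fun j : N => ∃ n, E n om ∧
      E (opair (app f n) (opair (nu k) (opair j (nu 1)))) cP)) ↔ ∃ n, P (g' n) k j 1 := by
    intro j
    rw [hYm]
    constructor
    · rintro ⟨_, n, hn, h⟩
      obtain ⟨n, rfl⟩ := hS n hn
      rw [hg' n] at h
      exact ⟨n, (hP _ _ _ _).1 h⟩
    · rintro ⟨n, h⟩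
      refine ⟨CUR.nu_mem_om j, nu n, CUR.nu_mem_om n, ?_⟩
      rw [hg' n]
      exact (hP _ _ _ _).2 h
  rw [hT.mem]
  refine ⟨g', by rw [hg0', hg0], hg1', fun n i j => ?_⟩
  refine Fin.lastCases ?_ (fun i => ?_) i
  · rw [Fin.snoc_last]
    have hk : ((Fin.last k : Fin (k + 1)) : ℕ) = k := rfl
    rw [hk]
    refine ⟨fun h => ?_, fun h => ?_⟩
    · rw [rb_iff, hY]
      exact ⟨n, h⟩
    · rw [rb_iff', hY]
      rintro ⟨m, hm⟩
      have h1 := hmono n m _ _ _ h
      have h2 := hmono m n _ _ _ hm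
      rw [add_comm m n] at h2
      exact hT.cons _ _ _ ⟨h1, h2⟩
  · rw [Fin.snoc_castSucc]
    have h1 := ((hXm _).1 (hf _ (CUR.nu_mem_om n)).1).2 _ (CUR.nu_mem_om j) i
    rw [hg' n] at h1
    have hk : ((i.castSucc : Fin (k + 1)) : ℕ) = i.1 := rfl
    rw [hk]
    refine ⟨fun h => ?_, fun h => ?_⟩
    · exact (rb_iff _ _).2 (h1.1 ((hP _ _ _ _).2 h))
    · exact (rb_iff' _ _).2 (h1.2 ((hP _ _ _ _).2 h))

end AO
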