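import Pool.Agent.H74.AO.HStmts
import Pool.Agent.H98.AO.BStmts

/-!
The assembly of the Borel part: `HGRStmt` from the statements of the modules.
-/

set_option linter.unusedVariables false
set_option linter.unusedSectionVars false
set_option synthInstance.maxSize 100000

namespace AO

open SW MeasureTheory

theorem mz_analytic (h : HZMStmt) : AnalyticSet {v : Fin 2 → Rl | ZZ (v 0) (v 1)} := by
  have h1 : MeasurableSet {v : Fin 2 → Rl | ZZ (v 0) (v 1)} := by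
    have : Measurable (fun v : Fin 2 → Rl => (v 0, v 1)) :=
      (measurable_pi_apply 0).prodMk (measurable_pi_apply 1)
    exact this h
  exact h1.analyticSet

/-- the relation `ZZ` is definable -/
theorem zd_of (hzm : HZMStmt) (had : HADStmt) : Cod (fun N _ _ => ZD N) := by
  obtain ⟨R, hR⟩ := had 2 _ (mz_analytic hzm)
  exact ⟨R, fun N _ _ hw hc => hR N hw hc⟩

theorem hgr_of (std : STDStmt) (hzm : HZMStmt) (had : HADStmt) (hcc : HCCStmt) (hnc : HNCStmt)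
    (hcd : HCDStmt) (hks : HKSStmt) (hrb : HRBStmt) (hrl : HRLStmt) (hgm : HGMStmt)
    (hg1 : HG1Stmt) (hg2 : HG2Stmt) (hg3 : HG3Stmt) (hg4 : HG4Stmt) : HGRStmt := by
  obtain ⟨H, hH⟩ := hnc ZZ hzm
  obtain ⟨R, hR⟩ := hcc.1 _ _ (zd_of hzm had) (hcc.1 _ _ hcd (hcc.1 _ _ (hgm ZZ H hH)
    (hcc.1 _ _ (hg1 ZZ H hH) (hcc.1 _ _ (hg2 ZZ H hH) (hcc.1 _ _ (hg3 ZZ H hH)
      (hg4 ZZ H hH))))))
  refine ⟨R, fun N _ _ hw hc => ?_⟩
  obtain ⟨h0, ⟨c⟩, h1, h2, h3, h4, h5⟩ := hR N hw hc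
  refine ⟨h0, c, ?_⟩
  obtain ⟨P, Q, L, z, u, hRN, hL⟩ := hrl N c
  obtain ⟨m, hm, ha⟩ := h1 c L hL
  have hinj : ∀ a b : N, E a (CUR.KS c) → E b (CUR.KS c) → H (rb a) = H (rb b) → a = b := by
    intro a b ka kb hab
    obtain ⟨sa, x, hx⟩ := ((hks N c).2 a).1 ka
    obtain ⟨sb, y, hy⟩ := ((hks N c).2 b).1 kb
    rw [hx, hy] at hab
    refine (hrb N (std N hw)).1 a b sa sb ?_
    rw [hx, hy, hH.inj x y hab]
  refine ⟨P, Q, L, z, u, m, fun a => H (rb a), hRN, ?_⟩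
  exact { mem := hm, inj := hinj, rng := h2 c, gx := h3 c, gt := h4 c, vs := h5 c, ana := ha }

end AO
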