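import Pool.Agent.H74.AO.HC
import Pool.Agent.H98.AO.BStmts

/-!
Measurable functions are definable in well-founded models with suitable parameters.
-/

set_option linter.unusedVariables false
set_option linter.unusedSectionVars false
set_option synthInstance.maxSize 100000

namespace AO

open SW MeasureTheory

theorem ao_hbf (had : HADStmt) (hae : HAEStmt) (hcc : HCCStmt) (hrb : HRBStmt) (std : STDStmt) :
    HBFStmt := by
  intro k f hf
  have hm : MeasurableSet {x : Fin (k + 1) → Rl | x (Fin.last k) = f (fun i => x i.castSucc)} := by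
    apply measurableSet_eq_fun
    · exact measurable_pi_apply _
    · exact hf.comp (measurable_pi_lambda _ fun i => measurable_pi_apply _)
  have ha := hm.analyticSet
  obtain ⟨R, hR⟩ := hcc.1 _ _ (had (k + 1) _ ha) (hae k _ ha)
  refine ⟨R, fun N _ _ hw hc => ?_⟩
  obtain ⟨h1, h2⟩ := hR N hw hc
  have hS := std N hw
  have h3 : Df (fun w : Fin (k + 1) → N => Sub (w 0) om ∧
      rb (w 0) = f (fun i => rb (w i.succ))) := by
    have h4 := (h1.ren (Fin.snoc (fun i : Fin k => i.succ) 0 : Fin (k + 1) → Fin (k + 1)))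
    have h5 : Df (fun w : Fin (k + 1) → N => Sub (w 0) om) := inferInstance
    refine (Df.and (hP := h5) (hQ := h4)).congr fun w => ?_
    simp only [Set.mem_ofPred_eq, Fin.snoc_last, Fin.snoc_castSucc]
  refine ⟨fun v => SW.the (fun y => Sub y om ∧ rb y = f (fun i => rb (v i))), ?_, fun v => ?_⟩
  · exact DfT.the (p := fun y v => Sub y om ∧ rb y = f (fun i => rb (v i))) (h := h3)
  · apply the_spec (p := fun y => Sub y om ∧ rb y = f (fun i => rb (v i)))
    obtain ⟨y, hy, hy2⟩ := h2 v (f (fun i => rb (v i))) (by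
      simp only [Set.mem_ofPred_eq, Fin.snoc_last, Fin.snoc_castSucc])
    simp only [Set.mem_ofPred_eq, Fin.snoc_last, Fin.snoc_castSucc] at hy2
    refine ⟨y, ⟨hy, hy2⟩, fun z hz => ?_⟩
    exact (hrb N hS).1 z y hz.1 hy (hz.2.trans hy2.symm)

end AO
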