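import Pool.Agent.H74.AO.HStmts

set_option linter.unusedVariables false
set_option synthInstance.maxSize 100000

namespace AO

open SW MeasureTheory

theorem ao_hcc : HCCStmt := by
  constructor
  · rintro Q Q' ⟨R, hR⟩ ⟨R', hR'⟩
    refine ⟨fun i => if i % 2 = 0 then R (i / 2) else R' (i / 2), fun N _ _ hw hc => ⟨?_, ?_⟩⟩
    · refine hR N hw fun i => ?_
      have := hc (2 * i)
      simpa using this
    · refine hR' N hw fun i => ?_
      have := hc (2 * i + 1)
      have h3 : (2 * i + 1) % 2 ≠ 0 := by omega
      have h4 : (2 * i + 1) / 2 = i := by omega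
      simpa [h3, h4] using this
  · intro Q h
    choose R hR using h
    refine ⟨fun i => R (Nat.unpair i).1 (Nat.unpair i).2, fun N _ _ hw hc i => ?_⟩
    refine hR i N hw fun j => ?_
    have := hc (Nat.pair i j)
    simpa using this

end AO
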