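import Pool.Agent.H98.AO.Defs
import Mathlib.MeasureTheory.Constructions.Polish.Basic
import Mathlib.MeasureTheory.Constructions.Polish.EmbeddingReal
import Mathlib.MeasureTheory.Constructions.BorelSpace.Real

/-!
Definitions for the Borel part: codes, trees of analytic sets, patterns of words, canonical
words, cuts, boxes; the group on the real numbers.
-/

set_option linter.unusedVariables false
set_option linter.unusedSectionVars false
set_option synthInstance.maxSize 100000

namespace AO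

open SW

/-! ### instances -/

instance polRl : PolishSpace (ℕ → Bool) := by constructor

instance polRlk (k : ℕ) : PolishSpace (Fin k → ℕ → Bool) := by constructor

instance polNn : PolishSpace (ℕ → ℕ) := by constructor

instance polR3 (k : ℕ) : PolishSpace (Fin k → ℝ) := by constructor

instance polRN (k : ℕ) : PolishSpace ((Fin k → ℝ) × (ℕ → ℕ)) := by constructor

/-! ### statements which hold in all models containing suitable relations -/

/-- `Q` holds in all well-founded models of ZFC which contain suitable relations -/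
def Cod (Q : ∀ (N : Type) [SetStr N] [ZFC N], Prop) : Prop :=
  ∃ R : ℕ → Set (Fin 5 → ℕ), ∀ (N : Type) [SetStr N] [ZFC N], WFd N → (∀ i, Has N (R i)) → Q N

/-! ### trees -/

/-- `R`, `P` and the root `a` represent the set `A` of `k`-tuples of infinite sequences: nodes are
natural numbers, `R` is the relation from a node to its children, `P s i j b` says that the
node `s` requires that the `j`-th entry of the `i`-th sequence is `b` (`0` or `1`) -/
structure Tree (k : ℕ) (A : Set (Fin k → Rl)) (a : ℕ) (R : ℕ → ℕ → Prop)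
    (P : ℕ → ℕ → ℕ → ℕ → Prop) : Prop where
  mono : ∀ s s' i j b, R s s' → P s i j b → P s' i j b
  cons : ∀ s i j, ¬ (P s i j 0 ∧ P s i j 1)
  mem : ∀ x, x ∈ A ↔ ∃ g : ℕ → ℕ, g 0 = a ∧ (∀ n, R (g n) (g (n + 1))) ∧
    ∀ n (i : Fin k) j, (P (g n) i j 1 → x i j = true) ∧ (P (g n) i j 0 → x i j = false)

/-! ### patterns -/

/-- letters of patterns -/
abbrev PLet := (ℕ × Str) ⊕ (ℕ × ℕ × ℕ)

/-- patterns of words -/
abbrev Pat := List (PLet × Bool)

/-- the generator given by a letter of a pattern and an assignment of vertices -/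
def pl (V : ℕ → Vx) : PLet → Gn
  | Sum.inl (i, s) => Sum.inl (V i, s)
  | Sum.inr (i, j, n) => Sum.inr ((V i).2, (V j).2, n)

/-- the word given by a pattern -/
def wp (V : ℕ → Vx) (p : Pat) : FreeGroup Gn := FreeGroup.mk (p.map (fun a => (pl V a.1, a.2)))

/-- the pattern with a given code -/
def pdec (n : ℕ) : Pat := ((Encodable.decode n : Option Pat)).getD []

/-- the vertices used by the pattern `p` are in `F` -/
def SI (V : ℕ → Vx) (F : Set Vx) (p : Pat) : Prop :=
  (∀ i s b, (Sum.inl (i, s), b) ∈ p → V i ∈ F) ∧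
  ∀ i j n b, (Sum.inr (i, j, n), b) ∈ p → (false, (V i).2) ∈ F ∧ (true, (V j).2) ∈ F

/-- the element of the group given by the pattern with code `p` -/
noncomputable def el (Z : Rl → Rl → Prop) (V : ℕ → Vx) (p : ℕ) : Gr Z :=
  QuotientGroup.mk (wp V (pdec p))

/-- the vertices with numbers in `J` -/
def fv (V : ℕ → Vx) (J : Finset ℕ) : Set Vx := {v | ∃ j ∈ J, v = V j}

/-- an order of the vertices is given by an injection `ι` in the real numbers; `V` lists `n`
vertices in increasing order -/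
def Srt (ι : Vx → ℝ) (n : ℕ) (V : ℕ → Vx) : Prop :=
  (∀ i j, i < j → j < n → ι (V i) < ι (V j)) ∧ ∀ i, n ≤ i → V i = (false, fun _ => false)

/-- codes of elements -/
abbrev Cd := ℕ × ℕ × (ℕ → Vx)

/-- canonical codes: `(n, p, V)` where `V` lists the least support, and `p` is the least code -/
structure CCd (ι : Vx → ℝ) (Z : Rl → Rl → Prop) (c : Cd) : Prop where
  srt : Srt ι c.1 c.2.2
  mem : el Z c.2.2 c.2.1 ∈ GV Z (fv c.2.2 (Finset.range c.1))
  min : ∀ i, i < c.1 → el Z c.2.2 c.2.1 ∉ GV Z (fv c.2.2 ((Finset.range c.1).erase i))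
  least : ∀ p, p < c.2.1 → el Z c.2.2 p ≠ el Z c.2.2 c.2.1

/-- measurable relations -/
def MZ (Z : Rl → Rl → Prop) : Prop := MeasurableSet {t : Rl × Rl | Z t.1 t.2}

/-! ### the group on the real numbers -/

/-- the sequence with the only entry `true` at `k` -/
def sgl (k : ℕ) : Rl := fun j => decide (j = k)

/-- the vertex coded by a sequence -/
def vtx (b : Rl) : Vx := (b 0, fun n => b (n + 1))

/-- `H` is a bijection from the real numbers to the group of `Z`, and everything is measurable -/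
structure NR (Z : Rl → Rl → Prop) (H : ℝ → Gr Z) : Prop where
  bij : Function.Bijective H
  mul : ∃ f : ℝ × ℝ → ℝ, Measurable f ∧ ∀ x y, H (f (x, y)) = H x * H y
  inv : ∃ f : ℝ → ℝ, Measurable f ∧ ∀ x, H (f x) = (H x)⁻¹
  gx : ∀ i : Bool, ∃ f : Rl × Rl → ℝ, Measurable f ∧ ∀ (X : Rl) (s : Str),
    H (f (X, sgl (sc s))) = GX Z (i, X) s
  gt : ∃ f : Rl × Rl × Rl → ℝ, Measurable f ∧ ∀ (X Y : Rl) (n : ℕ),
    H (f (X, Y, sgl n)) = GT Z X Y n
  vs : ∃ f : ℝ × Rl → Rl, Measurable f ∧ ∀ x, H x ∈ GV Z {v | ∃ k, v = vtx (f (x, sgl k))}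

/-! ### cuts and boxes -/

/-- the cut of a real number -/
noncomputable def cutc (x : ℝ) : Rl := fun j => decide ((CUR.qq j : ℝ) < x)

/-- `H`, restricted to the set of cuts, is a bijection to the group of `Z`, and everything is
measurable -/
structure NC (Z : Rl → Rl → Prop) (H : Rl → Gr Z) : Prop where
  inj : ∀ x y, H (cutc x) = H (cutc y) → x = y
  sur : ∀ g, ∃ x, H (cutc x) = g
  grp : MeasurableSet {x : Fin 3 → ℝ | H (cutc (x 0)) * H (cutc (x 1)) = H (cutc (x 2))}
  grc : MeasurableSet {x : Fin 3 → Rl | H (x 0) * H (x 1) = H (x 2)}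
  mul : ∃ f : (Fin 2 → Rl) → Rl, Measurable f ∧ ∀ v, (∃ x, f v = cutc x) ∧
    H (f v) = H (v 0) * H (v 1)
  inv : ∃ f : (Fin 1 → Rl) → Rl, Measurable f ∧ ∀ v, (∃ x, f v = cutc x) ∧
    H (f v) = (H (v 0))⁻¹
  gx : ∀ i : Bool, ∃ f : (Fin 2 → Rl) → Rl, Measurable f ∧ (∀ v, ∃ x, f v = cutc x) ∧
    ∀ (X : Rl) (s : Str), H (f ![X, sgl (sc s)]) = GX Z (i, X) s
  gt : ∃ f : (Fin 3 → Rl) → Rl, Measurable f ∧ (∀ v, ∃ x, f v = cutc x) ∧
    ∀ (X Y : Rl) (n : ℕ), H (f ![X, Y, sgl n]) = GT Z X Y n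
  vs : ∃ f : (Fin 2 → Rl) → Rl, Measurable f ∧
    ∀ x, H x ∈ GV Z {v | ∃ k, v = vtx (f ![x, sgl k])}

/-- a countable list of boxes in the product of three copies of the real numbers and the Baire
space -/
structure Bxs where
  lo : ℕ → Fin 3 → ℕ
  hi : ℕ → Fin 3 → ℕ
  u : ℕ → ℕ → ℕ → Prop
  fin : ∀ n, ∃ k0, ∀ k v, u n k v → k < k0

/-- the box number `n` contains the point -/
def Bxs.In (B : Bxs) (n : ℕ) (x : Fin 3 → ℝ) (u : ℕ → ℕ) : Prop :=
  (∀ c, (CUR.qq (B.lo n c) : ℝ) < x c ∧ x c < (CUR.qq (B.hi n c) : ℝ)) ∧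
  ∀ k v, B.u n k v → u k = v

end AO
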