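import Pool.Agent.H74.AO.HAsm
import Pool.Agent.H74.AO.HAB
import Pool.Agent.H74.AO.HAD
import Pool.Agent.H74.AO.HBF
import Pool.Agent.H74.AO.HCC
import Pool.Agent.H31.CT.DCX
import Pool.Agent.H35.MA.ACF
import Pool.Agent.H51.AO.HAN
import Pool.Agent.H51.AO.HCN
import Pool.Agent.H51.AO.HLS
import Pool.Agent.H45.AO.HBA
import Pool.Agent.H45.AO.HCT
import Pool.Agent.H45.AO.HMG
import Pool.Agent.H45.AO.HNC
import Pool.Agent.H93.AO.HCM
import Pool.Agent.H93.AO.HML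
import Pool.Agent.H53.AO.HBX
import Pool.Agent.H53.AO.HRL
import Pool.Agent.H53.AO.HTR
import Pool.Agent.H47.AO.HCD
import Pool.Agent.H47.AO.HG2
import Pool.Agent.H47.AO.HGM
import Pool.Agent.H47.AO.HUF
import Pool.Agent.H65.AO.HCU
import Pool.Agent.H65.AO.HNR
import Pool.Agent.H65.AO.HPT
import Pool.Agent.H17.AO.HKS
import Pool.Agent.H17.AO.HRB
import Pool.Agent.H17.AO.HZM
import Pool.Agent.H13.AO.WFX
import Pool.Agent.H21.AO.GXI
import Pool.Agent.H21.AO.GRI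
import Pool.Agent.H21.AO.GFS
import Pool.Agent.H31.AO.GRR
import Pool.Agent.H43.AO.HTV
import Pool.Agent.H43.AO.HTC
import Pool.Agent.H43.AO.HWP

/-!
Assembly of the modules of the Borel part.
-/

set_option linter.unusedVariables false
set_option linter.unusedSectionVars false
set_option synthInstance.maxSize 100000

namespace AO

open SW MeasureTheory

theorem hf_std : STDStmt := std
theorem hf_hab : HABStmt := ao_hab (ct_dcx ma_acf)
theorem hf_had : HADStmt := ao_had ao_htr hf_hab hf_std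
theorem hf_hae : HAEStmt := ao_hae ao_htr hf_hab ao_hrb hf_std
theorem hf_hbf : HBFStmt := ao_hbf hf_had hf_hae ao_hcc ao_hrb hf_std
theorem hf_hcd : HCDStmt := ao_hcd hf_std
theorem hf_huf : HUFStmt := ao_huf hf_std
theorem hf_hba : HBAStmt := ao_hba ao_hct
theorem hf_hcn : HCNStmt := hcn hf_hba hf_hae hf_huf ao_hks hf_std
theorem hf_han : HANStmt := han ao_hbx hf_hcn ao_hks hf_std
theorem hf_hgm : HGMStmt := ao_hgm ao_hcc hf_had hf_han ao_hks
theorem hf_hg2 : HG2Stmt := ao_hg2 ao_hcc hf_hbf ao_hks ao_hrb hf_std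
theorem hf_hg3 : HG3Stmt := ao_hg3 hf_hbf ao_hks ao_hrb hf_std

theorem hf_hls : HLSStmt := hls gri gfs grr
theorem hf_hwp : HWPStmt := ao_hwp (ao_htc ao_htv)
theorem hf_hml : HMLStmt := ao_hml hf_hwp ao_hpt
theorem hf_hsp : HSPStmt := ao_hsp hf_hml ao_hpt
theorem hf_hcm : HCMStmt := ao_hcm hf_hml hf_hsp
theorem hf_hcu : HCUStmt := ao_hcu ao_hpt hf_hls
theorem hf_hcf : HCFStmt := ao_hcf ao_hmg hf_hcu hf_hcm hf_hml
theorem hf_hbj : HBJStmt := ao_hbj hf_hcm hf_hcf gxi ao_hpt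
theorem hf_hnc : HNCStmt := ao_hnc (ao_hnr ao_hmg ao_hpt hf_hml hf_hcu hf_hbj) ao_hct

theorem hf_zd : Cod (fun N _ _ => ZD N) := zd_of ao_hzm hf_had

theorem hf_hgr (hg1 : HG1Stmt) (hg4 : HG4Stmt) : HGRStmt :=
  hgr_of hf_std ao_hzm hf_had ao_hcc hf_hnc hf_hcd ao_hks ao_hrb ao_hrl hf_hgm hg1 hf_hg2 hf_hg3 hg4

end AO
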